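import Pool.Agent.PP5LG.Main

/-!
# LB5, section G: `StG`
-/

set_option autoImplicit false

namespace Pool.Agent.PP5LG

open Matrix Finset Pool.Agent.PP5B Pool.Agent.LB

private theorem pow_ge {K e : ℝ} (hK : 1 ≤ K) (he : 0 < e) {R : ℝ} (hR : K ^ (1 / e) ≤ R) :
    K ≤ R ^ e := by
  have h0 : 0 < K ^ (1 / e) := Real.rpow_pos_of_pos (by linarith) _
  calc K = (K ^ (1 / e)) ^ e := by
        rw [← Real.rpow_mul (by linarith)]
        rw [one_div, inv_mul_cancel₀ he.ne', Real.rpow_one]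
    _ ≤ R ^ e := Real.rpow_le_rpow h0.le hR he.le

theorem stG {δc A : ℝ} (hCel : StCel) (hC : StC) (hY : StY) (hZ : StZ δc A) : StG δc A := by
  classical
  obtain ⟨Cn, hCn, hnb⟩ := nb_main
  obtain ⟨hc0, hcel⟩ := hCel
  obtain ⟨hC0, hCs⟩ := hC
  obtain ⟨CY, hY0, hYY⟩ := hY
  intro c3 hc3
  obtain ⟨κ0, η1, hκ0, hη1, hZ2⟩ := hZ c3 (81 * Cn) hc3 (by linarith)
  refine ⟨κ0, hκ0, ?_⟩
  intro κ hκ hκ0'
  obtain ⟨δ1, C1, R0, hδ1, hR0, hZ3⟩ := hZ2 κ hκ hκ0'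
  set δ : ℝ := min (δ1 / 2) (min κ (min (1 / 200) (η1 / 24))) with hδ
  have hδ0 : 0 < δ := by
    rw [hδ]
    refine lt_min (by linarith) (lt_min hκ (lt_min (by norm_num) (by linarith)))
  have hδa : δ ≤ δ1 / 2 := min_le_left _ _
  have hδb : δ ≤ κ := (min_le_right _ _).trans (min_le_left _ _)
  have hδc : δ ≤ 1 / 200 := (min_le_right _ _).trans ((min_le_right _ _).trans (min_le_left _ _))
  have hδd : δ ≤ η1 / 24 := (min_le_right _ _).trans ((min_le_right _ _).trans (min_le_right _ _))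
  set C : ℝ := |CY| + 4 * |C1| * Cn ^ 2 + 2 * |C1| with hCdef
  refine ⟨δ, η1 / 2, C, max hc0 (max hC0 (max hY0 10000)), hδ0, by linarith, ?_⟩
  intro w c hw hres h hh
  have hh1 : hc0 ≤ h := le_trans (le_max_left _ _) hh
  have hh2 : hC0 ≤ h := le_trans ((le_max_left _ _).trans (le_max_right _ _)) hh
  have hh3 : hY0 ≤ h :=
    le_trans ((le_max_left _ _).trans ((le_max_right _ _).trans (le_max_right _ _))) hh
  have hh4 : 10000 ≤ h :=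
    le_trans ((le_max_right _ _).trans ((le_max_right _ _).trans (le_max_right _ _))) hh
  obtain ⟨r1, hY2⟩ := hYY w c hw hres h hh3
  refine ⟨max r1 (max h (max ⌈R0⌉₊ ⌈Cn ^ (1 / (κ / 2))⌉₊)), ?_⟩
  intro r hr
  have hr1 : r1 ≤ r := le_trans (le_max_left _ _) hr
  have hr2 : h ≤ r := le_trans ((le_max_left _ _).trans (le_max_right _ _)) hr
  have hr3 : ⌈R0⌉₊ ≤ r :=
    le_trans ((le_max_left _ _).trans ((le_max_right _ _).trans (le_max_right _ _))) hr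
  have hr4 : ⌈Cn ^ (1 / (κ / 2))⌉₊ ≤ r :=
    le_trans ((le_max_right _ _).trans ((le_max_right _ _).trans (le_max_right _ _))) hr
  obtain ⟨Y, hYs, hYc, hYp⟩ := hY2 r hr1
  have hw0 : (0 : ℝ) < w := by exact_mod_cast (by omega : 0 < w)
  have hwp : 0 < (w : ℝ) ^ (-(1 / 6) : ℝ) := Real.rpow_pos_of_pos hw0 _
  refine ⟨Y, hYs, ?_, ?_⟩
  · refine hYc.trans ?_
    have h1 : CY ≤ C := by
      rw [hCdef]
      have := le_abs_self CY
      have h2 : 0 ≤ 4 * |C1| * Cn ^ 2 := by positivity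
      have h3 := abs_nonneg C1
      linarith
    exact mul_le_mul_of_nonneg_right (mul_le_mul_of_nonneg_right h1 hwp.le) (by positivity)
  intro Θ hΘ x hx hG hL t ht1 ht2
  rw [mem_sdiff] at hx
  obtain ⟨hxF, hxY⟩ := hx
  have hr0 : 1 ≤ r := by omega
  have hrR : (1 : ℝ) ≤ r := by exact_mod_cast hr0
  have hhR : (10000 : ℝ) ≤ h := by exact_mod_cast hh4
  have hhr : (h : ℝ) ≤ r := by exact_mod_cast hr2
  set R : ℝ := (h : ℝ) * r with hR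
  have hrR2 : (r : ℝ) ≤ R := by rw [hR]; nlinarith
  have hR1 : 1 ≤ R := by linarith
  have hRp : 0 < R := by linarith
  have hRR0 : R0 ≤ R := (Nat.le_ceil R0).trans ((by exact_mod_cast hr3 : ((⌈R0⌉₊ : ℕ) : ℝ) ≤ r).trans hrR2)
  have hRκ : Cn ≤ R ^ (κ / 2) := by
    apply pow_ge hCn (by linarith)
    exact (Nat.le_ceil _).trans
      ((by exact_mod_cast hr4 : ((⌈Cn ^ (1 / (κ / 2))⌉₊ : ℕ) : ℝ) ≤ r).trans hrR2)
  obtain ⟨hcx, hcD, -, -⟩ := hcel h w r c x hh1 hr0 hxF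
  obtain ⟨hFF, hprim⟩ := prim_of_mem hxF
  have hspl := hCs h w r c x hh2 hres hr0 hxF hG
  have hDneg : ((PP5LB.DD x : ℤ) : ℝ) < 0 := by
    have : 0 < R ^ 4 := by positivity
    linarith
  have hDne : PP5LB.DD x ≠ 0 := by
    intro h0; rw [h0] at hDneg; norm_num at hDneg
  have hcell : ∀ j, |(x j : ℝ) - R * xs j| ≤ R / 100 := by
    intro j
    refine (hcx j).trans ?_
    rw [hR]
    nlinarith
  have hLm : Lm R (δ1 / 2) x := by
    intro P h1 h2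
    obtain ⟨a, ha⟩ := hL P h1 h2
    exact ⟨a, (Real.rpow_le_rpow_of_exponent_le hR1 (by linarith)).trans ha⟩
  have hRr : R ^ δ ≤ (r : ℝ) ^ (1 / 100 : ℝ) := by
    have h1 : R ≤ (r : ℝ) ^ (2 : ℝ) := by
      rw [hR, show (2 : ℝ) = ((2 : ℕ) : ℝ) by norm_num, Real.rpow_natCast, pow_two]
      exact mul_le_mul_of_nonneg_right hhr (by linarith)
    calc R ^ δ ≤ R ^ (1 / 200 : ℝ) := Real.rpow_le_rpow_of_exponent_le hR1 hδc
      _ ≤ ((r : ℝ) ^ (2 : ℝ)) ^ (1 / 200 : ℝ) := Real.rpow_le_rpow hRp.le h1 (by norm_num)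
      _ = (r : ℝ) ^ (1 / 100 : ℝ) := by
          rw [← Real.rpow_mul (by linarith)]; norm_num
  -- the primes
  set PS : Finset ℕ := (Ioc w ⌊(r : ℝ) ^ (1 / 100 : ℝ)⌋₊).filter Nat.Prime with hPS
  set PT : Finset ℕ := PS.filter (fun p => (p : ℝ) ≤ R ^ δ) with hPT
  have hΘ0 := hΘ.nn x
  have hone : ∀ p ∈ PT, ((Sp' R t x p).ncard : ℝ) ≤
      4 * |C1| * Cn ^ 2 * (Θ x * t ^ 2 * R ^ 2) * ((Np p x : ℝ) * (p : ℝ) ^ (-(7 / 3) : ℝ)) +
        2 * |C1| * R ^ (2 - η1) * (p : ℝ) ^ 11 := by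
    intro p hp
    rw [hPT, mem_filter, hPS, mem_filter, mem_Ioc] at hp
    obtain ⟨⟨⟨hp1, hp2⟩, hp3⟩, hp4⟩ := hp
    have hp5 : (p : ℝ) ≤ (r : ℝ) ^ (1 / 100 : ℝ) := hp4.trans hRr
    have hsd := hG.sD p hp3 hp5
    have hp2' : p ≠ 2 := by omega
    refine one_prime (δc := δc) (A := A) (κ := κ) (δ1 := δ1) (c3 := c3) (r := r)
      (fun P0 h1 h2 h3 => ?_) hCn hR1 hκ hRκ hp3 ?_ ?_ hLm hcell hcD ?_ hΘ ht1 ht2
    · exact hnb x hprim hFF hDne hG.rk hspl p hp3 hp2' hsd P0 h1 h2 h3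
    · exact hp4.trans (Real.rpow_le_rpow_of_exponent_le hR1 hδa)
    · exact hp4.trans (Real.rpow_le_rpow_of_exponent_le hR1 hδb)
    · intro T G l hg t V hV
      exact (hZ3 R hRR0 x T G l hg t V hV).1
  have hcov : ({P : PP5.Sp | Zr R t x P ∧ ∃ p : ℕ, p.Prime ∧ w < p ∧ (p : ℝ) ≤ R ^ δ ∧ Imp p P}.ncard : ℝ) ≤
      ∑ p ∈ PT, ((Sp' R t x p).ncard : ℝ) := by
    have hfin : {P : PP5.Sp | Zr R t x P ∧ ∃ p : ℕ, p.Prime ∧ w < p ∧ (p : ℝ) ≤ R ^ δ ∧ Imp p P}.Finite :=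
      (Zr_fin R t x).subset fun P hP => hP.1
    have h1 : {P : PP5.Sp | Zr R t x P ∧ ∃ p : ℕ, p.Prime ∧ w < p ∧ (p : ℝ) ≤ R ^ δ ∧ Imp p P}.ncard ≤
        ∑ p ∈ PT, (Sp' R t x p).ncard := by
      rw [Set.ncard_eq_toFinset_card _ hfin]
      have h2 : hfin.toFinset ⊆ PT.biUnion (fun p => (Sp'_fin R t x p).toFinset) := by
        intro P hP
        rw [Set.Finite.mem_toFinset] at hP
        obtain ⟨hz, p, hp1, hp2, hp3, hp4⟩ := hP
        rw [mem_biUnion]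
        refine ⟨p, ?_, ?_⟩
        · rw [hPT, mem_filter, hPS, mem_filter, mem_Ioc]
          exact ⟨⟨⟨hp2, Nat.le_floor (hp3.trans hRr)⟩, hp1⟩, hp3⟩
        · rw [Set.Finite.mem_toFinset]
          exact ⟨hz, hp4⟩
      refine (card_le_card h2).trans (card_biUnion_le.trans (le_of_eq ?_))
      refine sum_congr rfl fun p _ => ?_
      rw [Set.ncard_eq_toFinset_card _ (Sp'_fin R t x p)]
    exact_mod_cast h1
  refine hcov.trans ((sum_le_sum hone).trans ?_)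
  rw [sum_add_distrib, ← mul_sum]
  have hsum1 : ∑ p ∈ PT, (Np p x : ℝ) * (p : ℝ) ^ (-(7 / 3) : ℝ) ≤ (w : ℝ) ^ (-(1 / 6) : ℝ) := by
    refine le_trans ?_ (hYp x hxF hxY)
    exact sum_le_sum_of_subset_of_nonneg (filter_subset _ _) fun p _ _ => by positivity
  have hsum2 : ∑ p ∈ PT, 2 * |C1| * R ^ (2 - η1) * (p : ℝ) ^ 11 ≤ 2 * |C1| * R ^ (2 - η1 / 2) := by
    rw [← mul_sum]
    have hRd : 0 < R ^ δ := Real.rpow_pos_of_pos hRp _
    have h1 : ∑ p ∈ PT, (p : ℝ) ^ 11 ≤ R ^ δ * (R ^ δ) ^ 11 := by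
      have h2 : ∀ p ∈ PT, (p : ℝ) ^ 11 ≤ (R ^ δ) ^ 11 := by
        intro p hp
        rw [hPT, mem_filter] at hp
        exact pow_le_pow_left₀ (by positivity) hp.2 _
      refine (sum_le_card_nsmul PT _ _ h2).trans ?_
      rw [nsmul_eq_mul]
      refine mul_le_mul_of_nonneg_right ?_ (by positivity)
      have h3 : PT ⊆ Ioc 0 ⌊R ^ δ⌋₊ := by
        intro p hp
        rw [hPT, mem_filter, hPS, mem_filter] at hp
        rw [mem_Ioc]
        exact ⟨hp.1.2.pos, Nat.le_floor hp.2⟩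
      have h4 := card_le_card h3
      rw [Nat.card_Ioc, Nat.sub_zero] at h4
      exact (by exact_mod_cast h4 : (PT.card : ℝ) ≤ (⌊R ^ δ⌋₊ : ℝ)).trans (Nat.floor_le hRd.le)
    have h5 : R ^ δ * (R ^ δ) ^ 11 ≤ R ^ (η1 / 2) := by
      rw [← Real.rpow_natCast (R ^ δ) 11, ← Real.rpow_mul hRp.le, ← Real.rpow_add hRp]
      apply Real.rpow_le_rpow_of_exponent_le hR1
      push_cast
      linarith
    have h6 : R ^ (2 - η1) * R ^ (η1 / 2) = R ^ (2 - η1 / 2) := by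
      rw [← Real.rpow_add hRp]; congr 1; ring
    have h7 : 0 ≤ 2 * |C1| * R ^ (2 - η1) := by
      have := Real.rpow_pos_of_pos hRp (2 - η1)
      positivity
    calc 2 * |C1| * R ^ (2 - η1) * ∑ p ∈ PT, (p : ℝ) ^ 11
        ≤ 2 * |C1| * R ^ (2 - η1) * R ^ (η1 / 2) := mul_le_mul_of_nonneg_left (h1.trans h5) h7
      _ = 2 * |C1| * R ^ (2 - η1 / 2) := by rw [mul_assoc, h6]
  have hsum3 : 4 * |C1| * Cn ^ 2 * (Θ x * t ^ 2 * R ^ 2) *
      ∑ p ∈ PT, (Np p x : ℝ) * (p : ℝ) ^ (-(7 / 3) : ℝ) ≤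
      4 * |C1| * Cn ^ 2 * (Θ x * t ^ 2 * R ^ 2) * (w : ℝ) ^ (-(1 / 6) : ℝ) :=
    mul_le_mul_of_nonneg_left hsum1 (by positivity)
  refine (add_le_add hsum3 hsum2).trans ?_
  have hR2 : 0 < R ^ (2 - η1 / 2) := Real.rpow_pos_of_pos hRp _
  have e1 : 4 * |C1| * Cn ^ 2 * (Θ x * t ^ 2 * R ^ 2) * (w : ℝ) ^ (-(1 / 6) : ℝ) =
      4 * |C1| * Cn ^ 2 * (Θ x * t ^ 2 * (w : ℝ) ^ (-(1 / 6) : ℝ) * R ^ 2) := by ring
  rw [e1, mul_add]
  have hq : 0 ≤ Θ x * t ^ 2 * (w : ℝ) ^ (-(1 / 6) : ℝ) * R ^ 2 := by positivity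
  have hca : 4 * |C1| * Cn ^ 2 ≤ C := by
    rw [hCdef]
    have := abs_nonneg CY
    have := abs_nonneg C1
    linarith
  have hcb : 2 * |C1| ≤ C := by
    rw [hCdef]
    have := abs_nonneg CY
    have : 0 ≤ 4 * |C1| * Cn ^ 2 := by positivity
    linarith
  exact add_le_add (mul_le_mul_of_nonneg_right hca hq) (mul_le_mul_of_nonneg_right hcb hR2.le)

end Pool.Agent.PP5LG
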