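import Pool.Agent.PP5LG.Defs

/-!
# LB5, section G: the zeros in one class modulo `p`
-/

set_option autoImplicit false

namespace Pool.Agent.PP5LG

open Matrix Finset Pool.Agent.PP5B Pool.Agent.LB

theorem box_fin (B : ℝ) (S : Set PP5.Sp) (h : ∀ P ∈ S, ∀ a, |(P a : ℝ)| ≤ B) : S.Finite := by
  refine ((Fintype.piFinset (fun _ : Fin 12 => Finset.Icc (-⌊B⌋) ⌊B⌋)).finite_toSet).subset ?_
  intro P hP
  rw [Finset.mem_coe, Fintype.mem_piFinset]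
  intro i
  have h1 := h P hP i
  rw [Finset.mem_Icc, ← abs_le, Int.le_floor]
  push_cast
  exact h1

theorem Zr_fin (R t : ℝ) (x : V10) : {P : PP5.Sp | Zr R t x P}.Finite :=
  box_fin _ _ fun _ hP => hP.le

/-- the class of `P0` modulo `p` -/
def Cls (R t : ℝ) (x : V10) (p : ℕ) (P0 : PP5.Sp) : Set PP5.Sp :=
  {P | Zr R t x P ∧ ∃ c : ℤ, ∀ a, (p : ℤ) ∣ P a - c * P0 a}

theorem cls_le {C R T t B : ℝ} {p : ℕ} {x : V10} {P0 : PP5.Sp} {b : Fin 4 → PP5.Sp}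
    {G : Matrix (Fin 4) (Fin 4) ℤ} {l : Fin 4 → ℝ} (h : Nb C p T x P0 b G l)
    (hZ : ∀ V : Finset (Fin 4 → ℤ), (∀ v ∈ V, Pr4 v ∧ v ⬝ᵥ (G *ᵥ v) = 0 ∧
      ∀ i, |(v i : ℝ)| * l i ≤ (C * t / p) * R ^ (5 / 2 : ℝ)) → (V.card : ℝ) ≤ B) :
    ((Cls R t x p P0).ncard : ℝ) ≤ B := by
  classical
  have hfin : (Cls R t x p P0).Finite := (Zr_fin R t x).subset fun P hP => hP.1
  have hc : ∀ P ∈ Cls R t x p P0, ∃ n : Fin 4 → ℤ, (Pr4 n ∧ n ⬝ᵥ (G *ᵥ n) = 0 ∧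
      ∀ i, |(n i : ℝ)| * l i ≤ (C * t / p) * R ^ (5 / 2 : ℝ)) ∧ ∀ a, P a = ∑ i, n i * b i a := by
    intro P hP
    obtain ⟨n, h1, h2, h3, h4⟩ := h.cov P _ hP.1.inE hP.1.qd hP.1.pr hP.2 hP.1.le
    refine ⟨n, ⟨h1, h2, fun i => (h4 i).trans (le_of_eq ?_)⟩, h3⟩
    ring
  let f : PP5.Sp → (Fin 4 → ℤ) := fun P => if hP : P ∈ Cls R t x p P0 then (hc P hP).choose else 0
  have hf : ∀ P ∈ Cls R t x p P0, (Pr4 (f P) ∧ (f P) ⬝ᵥ (G *ᵥ (f P)) = 0 ∧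
      ∀ i, |((f P) i : ℝ)| * l i ≤ (C * t / p) * R ^ (5 / 2 : ℝ)) ∧ ∀ a, P a = ∑ i, (f P) i * b i a := by
    intro P hP
    have e : f P = (hc P hP).choose := dif_pos hP
    rw [e]
    exact (hc P hP).choose_spec
  have hinj : Set.InjOn f (Cls R t x p P0) := by
    intro P hP Q hQ hPQ
    funext a
    rw [(hf P hP).2 a, (hf Q hQ).2 a, hPQ]
  have h1 : (Cls R t x p P0).ncard = (hfin.toFinset.image f).card := by
    rw [Finset.card_image_of_injOn (by rwa [Set.Finite.coe_toFinset]),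
      Set.ncard_eq_toFinset_card _ hfin]
  rw [h1]
  apply hZ
  intro v hv
  rw [Finset.mem_image] at hv
  obtain ⟨P, hP, rfl⟩ := hv
  rw [Set.Finite.mem_toFinset] at hP
  exact (hf P hP).1

end Pool.Agent.PP5LG
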