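import Pool.Agent.LB.DefsY

/-!
# LB5, section G: definitions
-/

set_option autoImplicit false

namespace Pool.Agent.PP5LG

open Matrix Finset Pool.Agent.PP5B Pool.Agent.LB

/-- the neighbour of `L_x` at `p` in the direction `P0` (basis `b`, Gram matrix `G`, lengths `l`, all
divided by `p`) -/
structure Nb (C : ℝ) (p : ℕ) (T : ℝ) (x : V10) (P0 : PP5.Sp) (b : Fin 4 → PP5.Sp)
    (G : Matrix (Fin 4) (Fin 4) ℤ) (l : Fin 4 → ℝ) : Prop where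
  T0 : 0 < T
  Tle : ∀ j, |(x j : ℝ)| ≤ T
  Tge : ∃ j, T ≤ |(x j : ℝ)|
  sym : ∀ i j, G i j = G j i
  ev : ∀ i, (2 : ℤ) ∣ G i i
  det : G.det = PP5LB.DD x
  adj : ∀ q : ℕ, q.Prime → ∃ i j, ¬ (q : ℤ) ∣ G.adjugate i j
  lp : ∀ i, 0 < l i
  mono : l 0 ≤ l 1 ∧ l 1 ≤ l 2 ∧ l 2 ≤ l 3
  gram : ∀ i j, |(G i j : ℝ)| ≤ C * l i * l j / T
  prod : ∏ i, l i ≤ C * T ^ 4
  min : ∀ i, PP5.InE (b i) x ∧ b i ≠ 0 ∧ ∀ a, |(b i a : ℝ)| ≤ p * l i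
  cov : ∀ (P : PP5.Sp) (Y : ℝ), PP5.InE P x → PP5.Qd P → Prs P →
    (∃ c : ℤ, ∀ a, (p : ℤ) ∣ P a - c * P0 a) → (∀ a, |(P a : ℝ)| ≤ Y) →
    ∃ n : Fin 4 → ℤ, Pr4 n ∧ n ⬝ᵥ (G *ᵥ n) = 0 ∧ (∀ a, P a = ∑ i, n i * b i a) ∧
      ∀ i, |(n i : ℝ)| * l i ≤ C * (Y / p)

end Pool.Agent.PP5LG
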