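import Pool.Agent.PP5LG.Defs

/-!
# LB5, section G: the neighbours satisfy the hypotheses of the zero count
-/

set_option autoImplicit false

namespace Pool.Agent.PP5LG

open Matrix Finset Pool.Agent.PP5B Pool.Agent.LB

theorem Nb.gz {C R δ T : ℝ} {p : ℕ} {x : V10} {P0 : PP5.Sp} {b : Fin 4 → PP5.Sp}
    {G : Matrix (Fin 4) (Fin 4) ℤ} {l : Fin 4 → ℝ} (h : Nb C p T x P0 b G l) (hC : 1 ≤ C)
    (hR : 1 ≤ R) (hT1 : R ≤ T) (hT3 : T ≤ 3 * R) (hDD : ((PP5LB.DD x : ℤ) : ℝ) ≤ -R ^ 4)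
    (hp : 0 < p) (hpR : (p : ℝ) ≤ R ^ δ) (hL : Lm R δ x) : GZ (81 * C) R (2 * δ) T x G l := by
  have hR0 : (0 : ℝ) < R := by linarith
  have hR4 : 0 < R ^ 4 := by positivity
  have hT0 := h.T0
  have hneg : PP5LB.DD x < 0 := by
    have : ((PP5LB.DD x : ℤ) : ℝ) < 0 := by linarith
    exact_mod_cast this
  have hlp := h.lp
  refine ⟨⟨h.sym, h.ev, ?_, ⟨PP5LB.DD x, hneg.ne, ?_⟩, ?_, ?_⟩,
    ⟨h.sym, h.ev, ?_, h.lp, h.mono.1, h.mono.2.1, h.mono.2.2, h.T0, ?_⟩, ?_, ?_, hneg, ?_, h.det, ?_, ?_, h.adj⟩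
  · rw [h.det]; exact hneg.ne
  · rw [h.det, pow_two]; rfl
  · intro q _ hq
    rw [h.det] at hq
    exact hq
  · intro n hn
    have h1 : n.natAbs = 1 := by
      by_contra hc
      obtain ⟨q, hq, hqn⟩ := Nat.exists_prime_and_dvd hc
      obtain ⟨i, j, hij⟩ := h.adj q hq
      exact hij ((Int.natCast_dvd.2 hqn).trans (hn i j))
    intro i j
    exact (Int.isUnit_iff_natAbs_eq.2 h1).dvd
  · rw [h.det]; exact hneg.ne
  · intro i j
    refine (h.gram i j).trans ?_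
    have h1 := hlp i
    have h2 := hlp j
    have h3 : C ≤ 81 * C := by linarith
    gcongr
  · nlinarith
  · nlinarith
  · rw [abs_of_neg (by linarith : ((PP5LB.DD x : ℤ) : ℝ) < 0)]
    nlinarith
  · refine h.prod.trans ?_
    have h1 : T ^ 4 ≤ (3 * R) ^ 4 := pow_le_pow_left₀ hT0.le hT3 4
    have h2 : (3 * R) ^ 4 = 81 * R ^ 4 := by ring
    rw [h2] at h1
    nlinarith
  · obtain ⟨h1, h2, h3⟩ := h.min 0
    obtain ⟨a, ha⟩ := hL _ h1 h2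
    have h4 : R ^ (1 - δ) ≤ R ^ δ * l 0 :=
      (ha.trans (h3 a)).trans (mul_le_mul_of_nonneg_right hpR (hlp 0).le)
    have h5 : R ^ (1 - 2 * δ) = R ^ (1 - δ) / R ^ δ := by
      rw [← Real.rpow_sub hR0]; congr 1; ring
    rw [h5, div_le_iff₀ (Real.rpow_pos_of_pos hR0 _), mul_comm]
    exact h4

end Pool.Agent.PP5LG
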