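import Pool.Agent.PP5LG.Cnt
import Pool.Agent.LB.Loc

/-!
# LB5, section G: the sum over the improper points modulo `p`
-/

set_option autoImplicit false

namespace Pool.Agent.PP5LG

open Matrix Finset Pool.Agent.PP5B Pool.Agent.LB

private theorem QdR_smul {K : Type*} [CommRing K] {P : Fin 12 → K} (h : PP5LN.QdR P) (u : K) :
    PP5LN.QdR (u • P) := by
  constructor
  · simp only [Pi.smul_apply, smul_eq_mul]; linear_combination u ^ 2 * h.h1
  · simp only [Pi.smul_apply, smul_eq_mul]; linear_combination u ^ 2 * h.h2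
  · simp only [Pi.smul_apply, smul_eq_mul]; linear_combination u ^ 2 * h.h3
  · simp only [Pi.smul_apply, smul_eq_mul]; linear_combination u ^ 2 * h.h4
  · simp only [Pi.smul_apply, smul_eq_mul]; linear_combination u ^ 2 * h.h5
  · simp only [Pi.smul_apply, smul_eq_mul]; linear_combination u ^ 2 * h.h6
  · simp only [Pi.smul_apply, smul_eq_mul]; linear_combination u ^ 2 * h.h7
  · simp only [Pi.smul_apply, smul_eq_mul]; linear_combination u ^ 2 * h.h8
  · simp only [Pi.smul_apply, smul_eq_mul]; linear_combination u ^ 2 * h.h9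
  · simp only [Pi.smul_apply, smul_eq_mul]; linear_combination u ^ 2 * h.h10

private theorem ImR_smul {K : Type*} [CommRing K] {P : Fin 12 → K} (h : PP5LN.ImR P) (u : K) :
    PP5LN.ImR (u • P) := by
  constructor
  · simp only [Pi.smul_apply, smul_eq_mul]; linear_combination u ^ 2 * h.i1
  · simp only [Pi.smul_apply, smul_eq_mul]; linear_combination u ^ 2 * h.i2
  · simp only [Pi.smul_apply, smul_eq_mul]; linear_combination u ^ 2 * h.i3

private theorem InR_smul {K : Type*} [CommRing K] {P : Fin 12 → K} {x : Fin 10 → K}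
    (h : PP5LN.InR P x) (u : K) : PP5LN.InR (u • P) x := by
  constructor
  · simp only [Pi.smul_apply, smul_eq_mul]; linear_combination u * h.e1
  · simp only [Pi.smul_apply, smul_eq_mul]; linear_combination u * h.e2
  · simp only [Pi.smul_apply, smul_eq_mul]; linear_combination u * h.e3
  · simp only [Pi.smul_apply, smul_eq_mul]; linear_combination u * h.e4
  · simp only [Pi.smul_apply, smul_eq_mul]; linear_combination u * h.e5
  · simp only [Pi.smul_apply, smul_eq_mul]; linear_combination u * h.e6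
  · simp only [Pi.smul_apply, smul_eq_mul]; linear_combination u * h.e7
  · simp only [Pi.smul_apply, smul_eq_mul]; linear_combination u * h.e8
  · simp only [Pi.smul_apply, smul_eq_mul]; linear_combination u * h.e9
  · simp only [Pi.smul_apply, smul_eq_mul]; linear_combination u * h.e10
  · simp only [Pi.smul_apply, smul_eq_mul]; linear_combination u * h.e11
  · simp only [Pi.smul_apply, smul_eq_mul]; linear_combination u * h.e12
  · simp only [Pi.smul_apply, smul_eq_mul]; linear_combination u * h.e13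
  · simp only [Pi.smul_apply, smul_eq_mul]; linear_combination u * h.e14
  · simp only [Pi.smul_apply, smul_eq_mul]; linear_combination u * h.e15
  · simp only [Pi.smul_apply, smul_eq_mul]; linear_combination u * h.e16

/-- the zeros improper at `p` -/
def Sp' (R t : ℝ) (x : V10) (p : ℕ) : Set PP5.Sp := {P | Zr R t x P ∧ Imp p P}

theorem Sp'_fin (R t : ℝ) (x : V10) (p : ℕ) : (Sp' R t x p).Finite :=
  (Zr_fin R t x).subset fun _ hP => hP.1

theorem Np_le (p : ℕ) [NeZero p] (x : V10) : Np p x ≤ p ^ 12 := by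
  classical
  unfold Np
  refine (Set.ncard_le_ncard (Set.subset_univ _)).trans ?_
  rw [Set.ncard_univ, Nat.card_eq_fintype_card, Fintype.card_fun, ZMod.card, Fintype.card_fin]

theorem lines_le {R t B : ℝ} {p : ℕ} (hp : p.Prime) {x : V10}
    (hB : ∀ P0 : PP5.Sp, PP5.InE P0 x → PP5.Qd P0 → Prs P0 → ((Cls R t x p P0).ncard : ℝ) ≤ B)
    (hB0 : 0 ≤ B) : ((p : ℝ) - 1) * ((Sp' R t x p).ncard : ℝ) ≤ (Np p x : ℝ) * B := by
  classical
  have : Fact p.Prime := ⟨hp⟩
  have : NeZero p := ⟨hp.ne_zero⟩
  set S : Finset PP5.Sp := (Sp'_fin R t x p).toFinset with hS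
  have hSm : ∀ P, P ∈ S ↔ Zr R t x P ∧ Imp p P := fun P => by
    rw [hS, Set.Finite.mem_toFinset]; rfl
  set I : Finset (Fin 12 → ZMod p) := univ.filter (fun P => PP5LN.QdR P ∧ PP5LN.ImR P ∧ P ≠ 0 ∧
    PP5LN.InR P (PP5LB.red p x)) with hI
  have hIc : I.card = Np p x := by
    unfold Np
    rw [← Set.ncard_coe_finset, hI]
    congr 1
    ext P
    simp
  have hSc : S.card = (Sp' R t x p).ncard := by
    rw [Set.ncard_eq_toFinset_card _ (Sp'_fin R t x p)]
  let rel : PP5.Sp → (Fin 12 → ZMod p) → Prop := fun P Q => ∃ u : (ZMod p)ˣ, Q = (u : ZMod p) • rdP p P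
  have hdc : ∑ P ∈ S, (I.filter (fun Q => rel P Q)).card = ∑ Q ∈ I, (S.filter (fun P => rel P Q)).card :=
    Finset.sum_card_bipartiteAbove_eq_sum_card_bipartiteBelow rel
  -- every zero has `p - 1` multiples
  have h1 : ∀ P ∈ S, p - 1 ≤ (I.filter (fun Q => rel P Q)).card := by
    intro P hP
    obtain ⟨hz, hi⟩ := (hSm P).1 hP
    have hne := rdP_ne hz.pr hp
    calc p - 1 = (univ : Finset (ZMod p)ˣ).card := by
          rw [card_univ, ZMod.card_units_eq_totient, Nat.totient_prime hp]
      _ = ((univ : Finset (ZMod p)ˣ).image (fun u : (ZMod p)ˣ => (u : ZMod p) • rdP p P)).card := by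
          rw [card_image_of_injective]
          intro u v huv
          simp only at huv
          obtain ⟨a, ha⟩ := Function.ne_iff.1 hne
          have h2 := congrFun huv a
          simp only [Pi.smul_apply, smul_eq_mul] at h2
          exact Units.ext (mul_right_cancel₀ ha h2)
      _ ≤ _ := by
          apply card_le_card
          intro Q hQ
          rw [mem_image] at hQ
          obtain ⟨u, -, rfl⟩ := hQ
          rw [mem_filter, hI, mem_filter]
          refine ⟨⟨mem_univ _, QdR_smul (cast_QdR hz.qd p) _, ImR_smul (cast_ImR hz.qd hi) _, ?_,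
            InR_smul (cast_InR hz.inE p) _⟩, u, rfl⟩
          intro h0
          apply hne
          rcases smul_eq_zero.1 h0 with h | h
          · exact absurd h u.ne_zero
          · exact h
  -- a class has at most `B` zeros
  have h2 : ∀ Q ∈ I, ((S.filter (fun P => rel P Q)).card : ℝ) ≤ B := by
    intro Q _
    rcases (S.filter (fun P => rel P Q)).eq_empty_or_nonempty with he | ⟨P0, hP0⟩
    · rw [he]; simpa using hB0
    · rw [mem_filter] at hP0
      obtain ⟨h0, u0, hu0⟩ := hP0
      obtain ⟨hz0, -⟩ := (hSm P0).1 h0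
      refine le_trans ?_ (hB P0 hz0.inE hz0.qd hz0.pr)
      have hcf : (Cls R t x p P0).Finite := (Zr_fin R t x).subset fun P hP => hP.1
      rw [← Set.ncard_coe_finset]
      have : (↑(S.filter (fun P => rel P Q)) : Set PP5.Sp) ⊆ Cls R t x p P0 := by
        intro P hP
        rw [mem_coe, mem_filter] at hP
        obtain ⟨hPS, u, hu⟩ := hP
        refine ⟨((hSm P).1 hPS).1, (((u⁻¹ * u0 : (ZMod p)ˣ) : ZMod p)).val, fun a => ?_⟩
        rw [← ZMod.intCast_zmod_eq_zero_iff_dvd]
        rw [Int.cast_sub, Int.cast_mul, Int.cast_natCast, ZMod.natCast_zmod_val]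
        have h3 : (u : ZMod p) * ((P a : ℤ) : ZMod p) = (u0 : ZMod p) * ((P0 a : ℤ) : ZMod p) := by
          have h4 := congrFun (hu.symm.trans hu0) a
          simpa only [Pi.smul_apply, smul_eq_mul, rdP] using h4
        have h5 : ((P a : ℤ) : ZMod p) = ((u⁻¹ : (ZMod p)ˣ) : ZMod p) * ((u0 : ZMod p) * ((P0 a : ℤ) : ZMod p)) := by
          rw [← h3, ← mul_assoc, Units.inv_mul, one_mul]
        rw [h5, Units.val_mul]
        ring
      exact_mod_cast Set.ncard_le_ncard this hcf
  have h3 : (S.card * (p - 1) : ℕ) ≤ ∑ Q ∈ I, (S.filter (fun P => rel P Q)).card := by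
    rw [← hdc, ← smul_eq_mul]
    exact card_nsmul_le_sum S _ _ h1
  have h4 : ((∑ Q ∈ I, (S.filter (fun P => rel P Q)).card : ℕ) : ℝ) ≤ (I.card : ℝ) * B := by
    push_cast
    refine (sum_le_sum h2).trans ?_
    rw [sum_const, nsmul_eq_mul]
  have h5 : ((p : ℝ) - 1) * (S.card : ℝ) = ((S.card * (p - 1) : ℕ) : ℝ) := by
    rw [Nat.cast_mul, Nat.cast_sub hp.one_le]
    push_cast; ring
  rw [← hSc, ← hIc, h5]
  exact (by exact_mod_cast h3 : ((S.card * (p - 1) : ℕ) : ℝ) ≤
    ((∑ Q ∈ I, (S.filter (fun P => rel P Q)).card : ℕ) : ℝ)).trans h4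

end Pool.Agent.PP5LG
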