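import Pool.Agent.PP5LG.Nbd
import Pool.Agent.PP5LG.Gzz
import Pool.Agent.PP5LG.Lns

/-!
# LB5, section G: the improper zeros
-/

set_option autoImplicit false

namespace Pool.Agent.PP5LG

open Matrix Finset Pool.Agent.PP5B Pool.Agent.LB

theorem real1 {C t p : ℝ} (hC : 1 ≤ C) (ht : 1 ≤ t) (hp : 1 ≤ p) :
    (C * t / p) ^ (4 / 3 : ℝ) * (1 + (C * t / p) ^ (2 / 3 : ℝ)) ≤
      2 * C ^ 2 * t ^ 2 * p ^ (-(4 / 3) : ℝ) := by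
  have hC0 : 0 < C := by linarith
  have ht0 : 0 < t := by linarith
  have hp0 : 0 < p := by linarith
  have hu : 0 < C * t / p := by positivity
  have h1 : (C * t / p) ^ (4 / 3 : ℝ) * (1 + (C * t / p) ^ (2 / 3 : ℝ)) =
      (C * t / p) ^ (4 / 3 : ℝ) + (C * t / p) ^ (2 : ℝ) := by
    rw [mul_add, mul_one, ← Real.rpow_add hu]; norm_num
  have hCt : 1 ≤ C * t := by nlinarith
  have h2 : (C * t / p) ^ (4 / 3 : ℝ) ≤ (C * t) ^ (2 : ℝ) * p ^ (-(4 / 3) : ℝ) := by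
    rw [Real.div_rpow (by positivity) hp0.le, Real.rpow_neg hp0.le, div_eq_mul_inv]
    exact mul_le_mul_of_nonneg_right (Real.rpow_le_rpow_of_exponent_le hCt (by norm_num))
      (by positivity)
  have h3 : (C * t / p) ^ (2 : ℝ) ≤ (C * t) ^ (2 : ℝ) * p ^ (-(4 / 3) : ℝ) := by
    rw [Real.div_rpow (by positivity) hp0.le, div_eq_mul_inv, ← Real.rpow_neg hp0.le]
    exact mul_le_mul_of_nonneg_left (Real.rpow_le_rpow_of_exponent_le hp (by norm_num))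
      (by positivity)
  have h4 : (C * t) ^ (2 : ℝ) = C ^ 2 * t ^ 2 := by
    rw [show (2 : ℝ) = ((2 : ℕ) : ℝ) by norm_num, Real.rpow_natCast]; ring
  rw [h1]
  rw [h4] at h2 h3
  linarith

theorem prim_of_mem {h w r : ℕ} {c x : V10} (hx : x ∈ Fm h w c r) :
    PP5L.FF x = 0 ∧ ∀ p : ℕ, p.Prime → ∃ j, ¬ (p : ℤ) ∣ x j := by
  classical
  simp only [Fm, PP5LB.XC, PP5LB.XA, mem_filter] at hx
  obtain ⟨⟨-, hF, a, b, d, hab⟩, -⟩ := hx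
  refine ⟨hF, fun p hp => ?_⟩
  by_contra hc
  push Not at hc
  have h1 : (p : ℤ) ∣ 1 := by
    rw [← hab]
    exact dvd_add (dvd_add (Dvd.dvd.mul_left (hc 1) _) (Dvd.dvd.mul_left (hc 6) _))
      (Dvd.dvd.mul_left (hc 7) _)
  have h2 := Int.isUnit_iff.1 (isUnit_of_dvd_one h1)
  have h3 := hp.two_le
  omega

/-- the bound for one prime -/
theorem one_prime {δc A : ℝ} {Cn C1 κ δ1 η1 R c3 : ℝ} {p r : ℕ} {x : V10}
    (hnb : ∀ P0 : PP5.Sp, PP5.InE P0 x → PP5.Qd P0 → Prs P0 →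
      ∃ (T : ℝ) (b : Fin 4 → PP5.Sp) (G : Matrix (Fin 4) (Fin 4) ℤ) (l : Fin 4 → ℝ),
        Nb Cn p T x P0 b G l)
    (hCn : 1 ≤ Cn) (hR : 1 ≤ R) (hκ : 0 < κ) (hRκ : Cn ≤ R ^ (κ / 2)) (hp : p.Prime)
    (hpδ : (p : ℝ) ≤ R ^ (δ1 / 2)) (hpκ : (p : ℝ) ≤ R ^ κ) (hL : Lm R (δ1 / 2) x)
    (hx : ∀ j, |(x j : ℝ) - R * xs j| ≤ R / 100) (hDD : ((PP5LB.DD x : ℤ) : ℝ) ≤ -R ^ 4)
    (hZ : ∀ (T : ℝ) (G : Matrix (Fin 4) (Fin 4) ℤ) (l : Fin 4 → ℝ), GZ (81 * Cn) R δ1 T x G l →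
      ∀ (t : ℝ) (V : Finset (Fin 4 → ℤ)), (∀ v ∈ V, Pr4 v ∧ v ⬝ᵥ (G *ᵥ v) = 0 ∧
        ∀ i, |(v i : ℝ)| * l i ≤ t * R ^ (5 / 2 : ℝ)) →
      (∀ Θ : V10 → ℝ, CC1 (R ^ (5 / 2 : ℝ)) δc A c3 Θ → R ^ (-κ) ≤ t → t ≤ R ^ κ →
        (V.card : ℝ) ≤ C1 * (Θ x * t ^ (4 / 3 : ℝ) * (1 + t ^ (2 / 3 : ℝ)) * R ^ 2 + R ^ (2 - η1))))
    {Θ : V10 → ℝ} (hΘ : CC1 (R ^ (5 / 2 : ℝ)) δc A c3 Θ) {t : ℝ} (ht1 : 1 ≤ t)
    (ht2 : t ≤ R ^ (κ / 2)) :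
    ((Sp' R t x p).ncard : ℝ) ≤
      4 * |C1| * Cn ^ 2 * (Θ x * t ^ 2 * R ^ 2) * ((Np p x : ℝ) * (p : ℝ) ^ (-(7 / 3) : ℝ)) +
        2 * |C1| * R ^ (2 - η1) * (p : ℝ) ^ 11 := by
  have hR0 : 0 < R := by linarith
  have hp1 : (1 : ℝ) ≤ p := by exact_mod_cast hp.one_le
  have hp2 : (2 : ℝ) ≤ p := by exact_mod_cast hp.two_le
  have hp0 : (0 : ℝ) < p := by linarith
  have hpne : NeZero p := ⟨hp.ne_zero⟩
  set t' : ℝ := Cn * t / p with ht'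
  have ht'0 : 0 < t' := by rw [ht']; positivity
  set B : ℝ := |C1| * (2 * Cn ^ 2 * t ^ 2 * (p : ℝ) ^ (-(4 / 3) : ℝ) * (Θ x * R ^ 2) + R ^ (2 - η1))
    with hB
  have hΘ0 := hΘ.nn x
  have hB0 : 0 ≤ B := by rw [hB]; positivity
  have hcls : ∀ P0 : PP5.Sp, PP5.InE P0 x → PP5.Qd P0 → Prs P0 →
      ((Cls R t x p P0).ncard : ℝ) ≤ B := by
    intro P0 h1 h2 h3
    obtain ⟨T, b, G, l, hN⟩ := hnb P0 h1 h2 h3
    have hT3 : T ≤ 3 * R := by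
      obtain ⟨j, hj⟩ := hN.Tge
      refine hj.trans ?_
      have h4 := hx j
      have h5 : |(x j : ℝ)| ≤ |(x j : ℝ) - R * xs j| + |R * xs j| := by
        have := abs_add_le ((x j : ℝ) - R * xs j) (R * xs j)
        simpa using this
      have h6 : |R * ((xs j : ℤ) : ℝ)| ≤ 2 * R := by
        rw [abs_mul, abs_of_pos hR0, mul_comm]
        refine mul_le_mul_of_nonneg_right ?_ hR0.le
        fin_cases j <;> simp [xs]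
      linarith
    have hT1 : R ≤ T := by
      have h4 := hx 8
      have h5 := hN.Tle 8
      have h6 : ((xs 8 : ℤ) : ℝ) = -2 := by simp [xs]
      rw [h6] at h4
      have h7 := abs_le.1 h4
      have h8 := abs_le.1 h5
      linarith
    have hg := hN.gz hCn hR hT1 hT3 hDD hp.pos hpδ hL
    rw [show 2 * (δ1 / 2) = δ1 by ring] at hg
    apply cls_le hN
    intro V hV
    have h4 : R ^ (-κ) ≤ t' := by
      rw [Real.rpow_neg hR0.le, ht', le_div_iff₀ hp0, inv_mul_le_iff₀ (Real.rpow_pos_of_pos hR0 _)]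
      have h6 : 1 ≤ Cn * t := by nlinarith
      have h7 := Real.rpow_pos_of_pos hR0 κ
      nlinarith
    have h5 : t' ≤ R ^ κ := by
      have h6 : t' ≤ Cn * t := by
        rw [ht', div_le_iff₀ hp0]
        nlinarith [mul_pos (lt_of_lt_of_le one_pos hCn) (lt_of_lt_of_le one_pos ht1)]
      refine h6.trans ?_
      have h7 : R ^ κ = R ^ (κ / 2) * R ^ (κ / 2) := by
        rw [← Real.rpow_add hR0]; congr 1; ring
      rw [h7]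
      exact mul_le_mul hRκ ht2 (by linarith) (Real.rpow_pos_of_pos hR0 _).le
    have h6 := hZ T G l hg t' V hV Θ hΘ h4 h5
    refine h6.trans ?_
    rw [hB]
    have h7 := real1 hCn ht1 hp1
    have h8 : Θ x * t' ^ (4 / 3 : ℝ) * (1 + t' ^ (2 / 3 : ℝ)) * R ^ 2 ≤
        2 * Cn ^ 2 * t ^ 2 * (p : ℝ) ^ (-(4 / 3) : ℝ) * (Θ x * R ^ 2) := by
      have h9 : 0 ≤ Θ x * R ^ 2 := by positivity
      calc Θ x * t' ^ (4 / 3 : ℝ) * (1 + t' ^ (2 / 3 : ℝ)) * R ^ 2 =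
            (t' ^ (4 / 3 : ℝ) * (1 + t' ^ (2 / 3 : ℝ))) * (Θ x * R ^ 2) := by ring
        _ ≤ _ := mul_le_mul_of_nonneg_right h7 h9
    have h10 : 0 ≤ Θ x * t' ^ (4 / 3 : ℝ) * (1 + t' ^ (2 / 3 : ℝ)) * R ^ 2 + R ^ (2 - η1) := by
      have := Real.rpow_pos_of_pos hR0 (2 - η1)
      positivity
    calc C1 * (Θ x * t' ^ (4 / 3 : ℝ) * (1 + t' ^ (2 / 3 : ℝ)) * R ^ 2 + R ^ (2 - η1))
        ≤ |C1| * (Θ x * t' ^ (4 / 3 : ℝ) * (1 + t' ^ (2 / 3 : ℝ)) * R ^ 2 + R ^ (2 - η1)) :=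
          mul_le_mul_of_nonneg_right (le_abs_self _) h10
      _ ≤ _ := mul_le_mul_of_nonneg_left (by linarith) (abs_nonneg _)
  have h1 := lines_le hp hcls hB0
  have h2 : (p : ℝ) / 2 * ((Sp' R t x p).ncard : ℝ) ≤ (Np p x : ℝ) * B := by
    refine le_trans (mul_le_mul_of_nonneg_right ?_ (by positivity)) h1
    linarith
  have h3 : ((Sp' R t x p).ncard : ℝ) ≤ 2 / p * ((Np p x : ℝ) * B) := by
    rw [div_mul_eq_mul_div, le_div_iff₀ hp0]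
    linarith
  refine h3.trans ?_
  have h4 : (p : ℝ) ^ (-(7 / 3) : ℝ) = (p : ℝ) ^ (-(4 / 3) : ℝ) * (p : ℝ)⁻¹ := by
    rw [← Real.rpow_neg_one, ← Real.rpow_add hp0]; norm_num
  have h5 : (Np p x : ℝ) ≤ (p : ℝ) ^ 12 := by exact_mod_cast Np_le p x
  have h6 : (Np p x : ℝ) / p ≤ (p : ℝ) ^ 11 := by
    rw [div_le_iff₀ hp0]
    calc (Np p x : ℝ) ≤ (p : ℝ) ^ 12 := h5
      _ = (p : ℝ) ^ 11 * p := by ring
  have h7 : 2 / (p : ℝ) * ((Np p x : ℝ) * B) =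
      4 * |C1| * Cn ^ 2 * (Θ x * t ^ 2 * R ^ 2) * ((Np p x : ℝ) * (p : ℝ) ^ (-(7 / 3) : ℝ)) +
        2 * |C1| * R ^ (2 - η1) * ((Np p x : ℝ) / p) := by
    rw [hB, h4]
    field_simp
    ring
  rw [h7]
  have h8 : 0 ≤ 2 * |C1| * R ^ (2 - η1) := by
    have := Real.rpow_pos_of_pos hR0 (2 - η1)
    positivity
  have := mul_le_mul_of_nonneg_left h6 h8
  linarith

end Pool.Agent.PP5LG
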