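import Pool.Agent.PP5B.Uni

/-!
# PP5LG, Nba: a basis adapted to a primitive zero
-/

set_option autoImplicit false

namespace Pool.Agent.PP5LG

open Matrix Pool.Agent.PP5B

/-- a primitive vector is the first column of a unimodular matrix -/
theorem ex_col {v0 : Fin 4 → ℤ} (h0 : Pr4 v0) :
    ∃ U : Matrix (Fin 4) (Fin 4) ℤ, U.det ^ 2 = 1 ∧ U *ᵥ ![1, 0, 0, 0] = v0 := by
  obtain ⟨U, hU, hv⟩ := ex_U v0 h0
  set W : Matrix (Fin 4) (Fin 4) ℤ := U.det • (Uᵀ).adjugate with hW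
  have hWU : W * Uᵀ = 1 := by
    rw [hW, Matrix.smul_mul, Matrix.adjugate_mul, Matrix.det_transpose, smul_smul, ← sq, hU,
      one_smul]
  set P : Matrix (Fin 4) (Fin 4) ℤ := !![0, 0, 0, 1; 0, 1, 0, 0; 0, 0, 1, 0; 1, 0, 0, 0] with hP
  have hPd : P.det = -1 := by rw [hP]; decide
  have hWd : W.det ^ 2 = 1 := by
    have h := congrArg Matrix.det hWU
    rw [Matrix.det_mul, Matrix.det_transpose, Matrix.det_one] at h
    have h2 : W.det ^ 2 * U.det ^ 2 = 1 := by rw [← mul_pow, h, one_pow]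
    rwa [hU, mul_one] at h2
  have hPe : P *ᵥ ![1, 0, 0, 0] = ![0, 0, 0, 1] := by
    ext i
    fin_cases i <;> simp [hP, mulVec, dotProduct, Fin.sum_univ_four]
  refine ⟨W * P, ?_, ?_⟩
  · rw [Matrix.det_mul, hPd, mul_pow, hWd]; norm_num
  · rw [← Matrix.mulVec_mulVec, hPe, ← hv, ← Matrix.mulVec_transpose, Matrix.mulVec_mulVec, hWU,
      Matrix.one_mulVec]

theorem ex_U3 {G : Matrix (Fin 4) (Fin 4) ℤ} (_hs : ∀ i j, G i j = G j i) {v0 : Fin 4 → ℤ}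
    (h0 : Pr4 v0) (hq : v0 ⬝ᵥ (G *ᵥ v0) = 0) :
    ∃ U : Matrix (Fin 4) (Fin 4) ℤ, U.det ^ 2 = 1 ∧ U *ᵥ ![1, 0, 0, 0] = v0 ∧
      (Uᵀ * G * U) 0 0 = 0 ∧ (Uᵀ * G * U) 0 2 = 0 ∧ (Uᵀ * G * U) 0 3 = 0 := by
  obtain ⟨U0, hU0, hv⟩ := ex_col h0
  set K : Matrix (Fin 4) (Fin 4) ℤ := U0ᵀ * G * U0 with hK
  obtain ⟨h, a, b, α, β, h2, h3, hab⟩ := gcd_dec (K 0 2) (K 0 3)
  obtain ⟨k, a', b', α', β', h1, hh, hab'⟩ := gcd_dec (K 0 1) h
  set M : Matrix (Fin 4) (Fin 4) ℤ :=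
    !![1, 0, 0, 0; 0, α', -b', 0; 0, α * β', α * a', -b; 0, β * β', β * a', a] with hM
  have hMd : M.det = 1 := by
    have e : M.det = (α * a + β * b) * (α' * a' + β' * b') := by
      rw [hM, Matrix.det_succ_row_zero]
      simp only [Fin.sum_univ_succ, Matrix.det_fin_three, Matrix.submatrix_apply]
      simp [Fin.succAbove]
      ring
    rw [e, hab, hab', one_mul]
  have hMe : M *ᵥ ![1, 0, 0, 0] = ![1, 0, 0, 0] := by
    ext i
    fin_cases i <;> simp [hM, mulVec, dotProduct, Fin.sum_univ_four]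
  have hK00 : K 0 0 = 0 := by
    have e : K 0 0 = v0 ⬝ᵥ (G *ᵥ v0) := by
      rw [← hv, Matrix.mulVec_mulVec, Matrix.dotProduct_mulVec, Matrix.vecMul_mulVec]
      rw [← Matrix.mul_assoc, ← hK]
      simp [vecMul, dotProduct, Fin.sum_univ_four]
    rw [e, hq]
  have hrow : ∀ j, ((U0 * M)ᵀ * G * (U0 * M)) 0 j = ∑ i, K 0 i * M i j := by
    intro j
    have e : (U0 * M)ᵀ * G * (U0 * M) = Mᵀ * (K * M) := by
      rw [hK, Matrix.transpose_mul]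
      simp only [Matrix.mul_assoc]
    rw [e, Matrix.mul_apply, Fin.sum_univ_four]
    have e0 : Mᵀ 0 0 = 1 := by simp [hM]
    have e1 : Mᵀ 0 1 = 0 := by simp [hM]
    have e2 : Mᵀ 0 2 = 0 := by simp [hM]
    have e3 : Mᵀ 0 3 = 0 := by simp [hM]
    rw [e0, e1, e2, e3, Matrix.mul_apply]
    simp
  refine ⟨U0 * M, ?_, ?_, ?_, ?_, ?_⟩
  · rw [Matrix.det_mul, hMd, mul_one, hU0]
  · rw [← Matrix.mulVec_mulVec, hMe, hv]
  · rw [hrow, Fin.sum_univ_four, hK00]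
    simp [hM]
  · rw [hrow, Fin.sum_univ_four, hK00]
    simp [hM]
    linear_combination (-b') * h1 + (α * a') * h2 + (β * a') * h3 + (a' * h) * hab + a' * hh
  · rw [hrow, Fin.sum_univ_four, hK00]
    simp [hM]
    linear_combination (-b) * h2 + a * h3

end Pool.Agent.PP5LG
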