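import Pool.Agent.PP5LG.Nba

/-!
# PP5LG, Nbb: the `p`-neighbour attached to a primitive zero
-/

set_option autoImplicit false

namespace Pool.Agent.PP5LG

open Matrix Pool.Agent.PP5B

/-- the diagonal matrix -/
def Dp (p : ℤ) : Matrix (Fin 4) (Fin 4) ℤ := !![1, 0, 0, 0; 0, p ^ 2, 0, 0; 0, 0, p, 0; 0, 0, 0, p]

theorem Dp_det (p : ℤ) : (Dp p).det = p ^ 4 := by
  rw [Dp, Matrix.det_succ_row_zero]
  simp only [Fin.sum_univ_succ, Matrix.det_fin_three, Matrix.submatrix_apply]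
  simp [Fin.succAbove]
  ring

/-- the Gram matrix of the neighbour -/
def Gp (p : ℤ) (K : Matrix (Fin 4) (Fin 4) ℤ) : Matrix (Fin 4) (Fin 4) ℤ :=
  !![0, K 0 1, 0, 0;
     K 0 1, p ^ 2 * K 1 1, p * K 1 2, p * K 1 3;
     0, p * K 1 2, K 2 2, K 2 3;
     0, p * K 1 3, K 2 3, K 3 3]

theorem Gp_eq {p : ℤ} {K : Matrix (Fin 4) (Fin 4) ℤ} (hs : ∀ i j, K i j = K j i)
    (h00 : K 0 0 = 0) (h02 : K 0 2 = 0) (h03 : K 0 3 = 0) :
    (Dp p)ᵀ * K * Dp p = p ^ 2 • Gp p K := by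
  have e10 : K 1 0 = K 0 1 := hs 1 0
  have e20 : K 2 0 = 0 := by rw [hs 2 0, h02]
  have e30 : K 3 0 = 0 := by rw [hs 3 0, h03]
  have e21 : K 2 1 = K 1 2 := hs 2 1
  have e31 : K 3 1 = K 1 3 := hs 3 1
  have e32 : K 3 2 = K 2 3 := hs 3 2
  ext i j
  fin_cases i <;> fin_cases j <;>
    simp [Dp, Gp, Matrix.mul_apply, Fin.sum_univ_four, h00, h02, h03, e10, e20, e30, e21, e31,
      e32] <;> ring

theorem K_det {K : Matrix (Fin 4) (Fin 4) ℤ} (hs : ∀ i j, K i j = K j i)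
    (h00 : K 0 0 = 0) (h02 : K 0 2 = 0) (h03 : K 0 3 = 0) :
    K.det = -(K 0 1) ^ 2 * (K 2 2 * K 3 3 - K 2 3 ^ 2) := by
  have e10 : K 1 0 = K 0 1 := hs 1 0
  have e20 : K 2 0 = 0 := by rw [hs 2 0, h02]
  have e30 : K 3 0 = 0 := by rw [hs 3 0, h03]
  have e21 : K 2 1 = K 1 2 := hs 2 1
  have e31 : K 3 1 = K 1 3 := hs 3 1
  have e32 : K 3 2 = K 2 3 := hs 3 2
  rw [Matrix.det_succ_row_zero]
  simp only [Fin.sum_univ_succ, Matrix.det_fin_three, Matrix.submatrix_apply]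
  simp [Fin.succAbove, h00, h02, h03, e10, e20, e30, e21, e31, e32]
  ring

theorem nb_exists {G : Matrix (Fin 4) (Fin 4) ℤ} (hs : ∀ i j, G i j = G j i)
    (hev : ∀ i, 2 ∣ G i i) {p : ℕ} (hp : p.Prime) (hp2 : p ≠ 2) (hd : ¬ (p : ℤ) ^ 2 ∣ G.det)
    {v0 : Fin 4 → ℤ} (h0 : Pr4 v0) (hq : v0 ⬝ᵥ (G *ᵥ v0) = 0) :
    ∃ V G' : Matrix (Fin 4) (Fin 4) ℤ, Vᵀ * G * V = (p : ℤ) ^ 2 • G' ∧
      (∀ i j, G' i j = G' j i) ∧ (∀ i, 2 ∣ G' i i) ∧ G'.det = G.det ∧ V.det ^ 2 = (p : ℤ) ^ 8 ∧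
      ∀ v : Fin 4 → ℤ, Pr4 v → v ⬝ᵥ (G *ᵥ v) = 0 →
        (∃ c : ℤ, ∀ i, (p : ℤ) ∣ v i - c * v0 i) → ∃ n : Fin 4 → ℤ, v = V *ᵥ n := by
  obtain ⟨U, hU, hv0, h00, h02, h03⟩ := ex_U3 hs h0 hq
  set K : Matrix (Fin 4) (Fin 4) ℤ := Uᵀ * G * U with hK
  have hGt : Gᵀ = G := by ext i j; exact hs j i
  have hKt : Kᵀ = K := by
    rw [hK, Matrix.transpose_mul, Matrix.transpose_mul, Matrix.transpose_transpose, hGt,
      Matrix.mul_assoc]
  have hKs : ∀ i j, K i j = K j i := fun i j => by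
    have := congrFun (congrFun hKt j) i
    rw [Matrix.transpose_apply] at this
    exact this
  -- even diagonal
  have hKev : ∀ i, 2 ∣ K i i := by
    intro i
    have e : K i i = (fun a => U a i) ⬝ᵥ (G *ᵥ (fun a => U a i)) := by
      rw [hK, Matrix.mul_assoc, Matrix.mul_apply]; rfl
    rw [e]
    choose a ha using hev
    simp only [dotProduct, mulVec, Fin.sum_univ_four]
    rw [hs 1 0, hs 2 0, hs 3 0, hs 2 1, hs 3 1, hs 3 2, ha 0, ha 1, ha 2, ha 3]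
    refine ⟨a 0 * U 0 i ^ 2 + a 1 * U 1 i ^ 2 + a 2 * U 2 i ^ 2 + a 3 * U 3 i ^ 2
      + G 0 1 * U 0 i * U 1 i + G 0 2 * U 0 i * U 2 i + G 0 3 * U 0 i * U 3 i
      + G 1 2 * U 1 i * U 2 i + G 1 3 * U 1 i * U 3 i + G 2 3 * U 2 i * U 3 i, ?_⟩
    ring
  have hKd : K.det = G.det := by
    rw [hK, Matrix.det_mul, Matrix.det_mul, Matrix.det_transpose]
    calc U.det * G.det * U.det = G.det * U.det ^ 2 := by ring
      _ = G.det := by rw [hU, mul_one]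
  have hpZ : Prime (p : ℤ) := Nat.prime_iff_prime_int.1 hp
  have hg : ¬ (p : ℤ) ∣ K 0 1 := by
    rintro ⟨t, ht⟩
    apply hd
    rw [← hKd, K_det hKs h00 h02 h03, ht]
    exact ⟨-t ^ 2 * (K 2 2 * K 3 3 - K 2 3 ^ 2), by ring⟩
  have hVG : (U * Dp p)ᵀ * G * (U * Dp p) = (p : ℤ) ^ 2 • Gp p K := by
    rw [← Gp_eq hKs h00 h02 h03, hK, Matrix.transpose_mul]
    simp only [Matrix.mul_assoc]
  refine ⟨U * Dp p, Gp p K, hVG, ?_, ?_, ?_, ?_, ?_⟩
  · intro i j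
    fin_cases i <;> fin_cases j <;> simp [Gp]
  · intro i
    fin_cases i
    · simp [Gp]
    · simp only [Gp]
      exact Dvd.dvd.mul_left (hKev 1) _
    · exact hKev 2
    · exact hKev 3
  · have h5 := congrArg Matrix.det hVG
    rw [Matrix.det_mul, Matrix.det_mul, Matrix.det_transpose, Matrix.det_mul, Dp_det,
      Matrix.det_smul] at h5
    have h6 : (p : ℤ) ^ 8 * (Gp p K).det = (p : ℤ) ^ 8 * G.det := by
      have hc : Fintype.card (Fin 4) = 4 := by simp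
      rw [hc] at h5
      have : ((p : ℤ) ^ 2) ^ 4 * (Gp p K).det = (p : ℤ) ^ 8 * (G.det * U.det ^ 2) := by
        rw [← h5]; ring
      rw [hU, mul_one] at this
      rw [← this]; ring
    exact mul_left_cancel₀ (pow_ne_zero 8 hpZ.ne_zero) h6
  · rw [Matrix.det_mul, Dp_det, mul_pow, hU]; ring
  · rintro v hv hvq ⟨c, hc⟩
    -- coordinates
    set W : Matrix (Fin 4) (Fin 4) ℤ := U.det • U.adjugate with hW
    have hWU : W * U = 1 := by
      rw [hW, Matrix.smul_mul, Matrix.adjugate_mul, smul_smul, ← sq, hU, one_smul]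
    have hUW : U * W = 1 := by
      rw [hW, Matrix.mul_smul, Matrix.mul_adjugate, smul_smul, ← sq, hU, one_smul]
    set y : Fin 4 → ℤ := W *ᵥ v with hy
    have hUy : U *ᵥ y = v := by rw [hy, Matrix.mulVec_mulVec, hUW, Matrix.one_mulVec]
    have hWv0 : W *ᵥ v0 = ![1, 0, 0, 0] := by
      rw [← hv0, Matrix.mulVec_mulVec, hWU, Matrix.one_mulVec]
    have hyp : ∀ i, (p : ℤ) ∣ y i - c * (![1, 0, 0, 0] : Fin 4 → ℤ) i := by
      intro i
      have e : y i - c * (![1, 0, 0, 0] : Fin 4 → ℤ) i = ∑ j, W i j * (v j - c * v0 j) := by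
        rw [← hWv0, hy]
        simp only [mulVec, dotProduct, Finset.mul_sum]
        rw [← Finset.sum_sub_distrib]
        exact Finset.sum_congr rfl fun j _ => by ring
      rw [e]
      exact Finset.dvd_sum fun j _ => Dvd.dvd.mul_left (hc j) _
    have h1 : (p : ℤ) ∣ y 1 := by simpa using hyp 1
    have h2 : (p : ℤ) ∣ y 2 := by simpa using hyp 2
    have h3 : (p : ℤ) ∣ y 3 := by simpa using hyp 3
    have hy0 : ¬ (p : ℤ) ∣ y 0 := by
      intro h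
      apply hv p hp
      intro i
      rw [← hUy]
      simp only [mulVec, dotProduct]
      refine Finset.dvd_sum fun j _ => Dvd.dvd.mul_left ?_ _
      fin_cases j
      · exact h
      · exact h1
      · exact h2
      · exact h3
    have hyq : y ⬝ᵥ (K *ᵥ y) = 0 := by
      have e : y ⬝ᵥ (K *ᵥ y) = (U *ᵥ y) ⬝ᵥ (G *ᵥ (U *ᵥ y)) := by
        rw [hK, ← Matrix.mulVec_mulVec, ← Matrix.mulVec_mulVec, Matrix.dotProduct_mulVec,
          Matrix.vecMul_transpose]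
      rw [e, hUy, hvq]
    have e10 : K 1 0 = K 0 1 := hKs 1 0
    have e20 : K 2 0 = 0 := by rw [hKs 2 0, h02]
    have e30 : K 3 0 = 0 := by rw [hKs 3 0, h03]
    have e21 : K 2 1 = K 1 2 := hKs 2 1
    have e31 : K 3 1 = K 1 3 := hKs 3 1
    have e32 : K 3 2 = K 2 3 := hKs 3 2
    obtain ⟨a, ha⟩ := h1
    obtain ⟨b, hb⟩ := h2
    obtain ⟨d, hd'⟩ := h3
    have h7 : (p : ℤ) ∣ a := by
      have h8 : (p : ℤ) * (2 * (K 0 1 * (y 0 * a))) = (p : ℤ) * (p * (-(K 1 1 * a ^ 2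
          + 2 * K 1 2 * a * b + 2 * K 1 3 * a * d + K 2 2 * b ^ 2 + 2 * K 2 3 * b * d
          + K 3 3 * d ^ 2))) := by
        simp only [dotProduct, mulVec, Fin.sum_univ_four] at hyq
        rw [h00, h02, h03, e10, e20, e30, e21, e31, e32, ha, hb, hd'] at hyq
        linear_combination hyq
      have h9 := mul_left_cancel₀ hpZ.ne_zero h8
      have h10 : (p : ℤ) ∣ 2 * (K 0 1 * (y 0 * a)) := ⟨_, h9⟩
      rcases hpZ.dvd_or_dvd h10 with h | h
      · exfalso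
        have h11 : p ∣ 2 := by exact_mod_cast h
        exact hp2 ((Nat.prime_dvd_prime_iff_eq hp Nat.prime_two).1 h11)
      · exact (hpZ.dvd_or_dvd ((hpZ.dvd_or_dvd h).resolve_left hg)).resolve_left hy0
    obtain ⟨a', ha'⟩ := h7
    refine ⟨![y 0, a', b, d], ?_⟩
    rw [← Matrix.mulVec_mulVec, ← hUy]
    congr 1
    funext i
    fin_cases i
    · simp [Dp, mulVec, dotProduct, Fin.sum_univ_four]
    · simp [Dp, mulVec, dotProduct, Fin.sum_univ_four]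
      rw [ha, ha']; ring
    · simp [Dp, mulVec, dotProduct, Fin.sum_univ_four]
      exact hb
    · simp [Dp, mulVec, dotProduct, Fin.sum_univ_four]
      exact hd'

end Pool.Agent.PP5LG
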