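import Pool.Agent.PP5B.Uni

/-!
# PP5LG, Nbc: the content of the adjugate of a neighbour
-/

set_option autoImplicit false

namespace Pool.Agent.PP5LG

open Matrix Pool.Agent.PP5B

theorem nb_adj {G G' V : Matrix (Fin 4) (Fin 4) ℤ} {p : ℕ} (hp : p.Prime)
    (hV : Vᵀ * G * V = (p : ℤ) ^ 2 • G') (hdV : V.det ^ 2 = (p : ℤ) ^ 8) (hd : G'.det = G.det)
    (h2 : ¬ (p : ℤ) ^ 2 ∣ G.det) (ha : ∀ l : ℕ, l.Prime → ∃ i j, ¬ (l : ℤ) ∣ G.adjugate i j) :
    ∀ l : ℕ, l.Prime → ∃ i j, ¬ (l : ℤ) ∣ G'.adjugate i j := by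
  intro l hl
  by_contra hcon
  push Not at hcon
  have hlZ : Prime (l : ℤ) := Nat.prime_iff_prime_int.1 hl
  have hpZ : Prime (p : ℤ) := Nat.prime_iff_prime_int.1 hp
  by_cases hlp : l = p
  · subst hlp
    -- `l ^ 4` divides `det (adj G') = det G ^ 3`
    have h4 : (l : ℤ) ^ 4 ∣ G'.det ^ 3 := by
      choose c hc using hcon
      have e : G'.adjugate = (l : ℤ) • (Matrix.of fun i j => c i j) := by
        ext i j
        rw [Matrix.smul_apply, Matrix.of_apply, smul_eq_mul]; exact hc i j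
      have h5 : G'.adjugate.det = G'.det ^ 3 := by
        rw [Matrix.det_adjugate]; simp
      rw [← h5, e, Matrix.det_smul]
      simp
    rw [hd] at h4
    by_cases h6 : (l : ℤ) ∣ G.det
    · obtain ⟨m, hm⟩ := h6
      have hm' : ¬ (l : ℤ) ∣ m := by
        rintro ⟨t, ht⟩
        apply h2
        exact ⟨t, by rw [hm, ht]; ring⟩
      have h7 : (l : ℤ) ^ 3 * l ∣ (l : ℤ) ^ 3 * m ^ 3 := by
        have e : (l : ℤ) ^ 3 * m ^ 3 = G.det ^ 3 := by rw [hm]; ring
        rw [e, ← pow_succ]; exact h4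
      have h8 : (l : ℤ) ∣ m ^ 3 :=
        (mul_dvd_mul_iff_left (pow_ne_zero 3 hlZ.ne_zero)).1 h7
      exact hm' (hlZ.dvd_of_dvd_pow h8)
    · apply h6
      exact hlZ.dvd_of_dvd_pow (dvd_trans (dvd_pow_self _ (by norm_num)) h4)
  · -- `p ^ 8 adj G = p ^ 6 V adj G' Vᵀ`
    have e1 : V * (Vᵀ * G * V).adjugate * Vᵀ = (p : ℤ) ^ 8 • G.adjugate := by
      rw [Matrix.adjugate_mul_distrib, Matrix.adjugate_mul_distrib]
      have e2 : V * V.adjugate = V.det • 1 := Matrix.mul_adjugate V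
      have e3 : Vᵀ.adjugate * Vᵀ = V.det • 1 := by
        rw [Matrix.adjugate_mul, Matrix.det_transpose]
      calc V * (V.adjugate * (G.adjugate * Vᵀ.adjugate)) * Vᵀ
          = (V * V.adjugate) * G.adjugate * (Vᵀ.adjugate * Vᵀ) := by
            simp only [Matrix.mul_assoc]
        _ = (V.det ^ 2) • G.adjugate := by
            rw [e2, e3, Matrix.smul_mul, Matrix.one_mul, Matrix.smul_mul, Matrix.mul_smul,
              Matrix.mul_one, smul_smul, sq]
        _ = _ := by rw [hdV]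
    rw [hV, Matrix.adjugate_smul] at e1
    obtain ⟨i, j, hij⟩ := ha l hl
    apply hij
    have h3 : (l : ℤ) ∣ (p : ℤ) ^ 8 * G.adjugate i j := by
      have e4 := congrFun (congrFun e1 i) j
      rw [Matrix.smul_apply, smul_eq_mul] at e4
      rw [← e4, Matrix.mul_apply]
      refine Finset.dvd_sum fun k _ => Dvd.dvd.mul_right ?_ _
      rw [Matrix.mul_apply]
      refine Finset.dvd_sum fun m _ => Dvd.dvd.mul_left ?_ _
      rw [Matrix.smul_apply, smul_eq_mul]
      exact Dvd.dvd.mul_left (hcon m k) _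
    refine (hlZ.dvd_or_dvd h3).resolve_left fun h4 => hlp ?_
    have h5 := hlZ.dvd_of_dvd_pow h4
    have h6 : l ∣ p := by exact_mod_cast h5
    exact (Nat.prime_dvd_prime_iff_eq hl hp).1 h6

end Pool.Agent.PP5LG
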