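import Mathlib

/-!
# LB5, section G: the product of the lengths of a reduced basis of a sublattice
-/

set_option autoImplicit false

namespace Pool.Agent.PP5LG

open Matrix Finset

theorem prod_le {V : Matrix (Fin 4) (Fin 4) ℤ} (hV : V.det ≠ 0) {l l' : Fin 4 → ℝ}
    (hl : ∀ i, 0 < l i) (hl' : ∀ i, 0 < l' i) {C : ℝ} (hC : 0 < C)
    (h : ∀ i j, |(V.adjugate i j : ℝ)| * l' i ≤ C * |(V.det : ℝ)| * l j) :
    ∏ i, l' i ≤ 24 * C ^ 4 * |(V.det : ℝ)| * ∏ i, l i := by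
  have hD : 0 < |(V.det : ℝ)| := abs_pos.2 (by exact_mod_cast hV)
  have hP : 0 < ∏ i, l i := prod_pos fun i _ => hl i
  have hP' : 0 < ∏ i, l' i := prod_pos fun i _ => hl' i
  have h1 : |((V.adjugate).det : ℝ)| = |(V.det : ℝ)| ^ 3 := by
    rw [Matrix.det_adjugate]
    simp
  have h2 : |((V.adjugate).det : ℝ)| ≤ ∑ σ : Equiv.Perm (Fin 4), ∏ i, |(V.adjugate (σ i) i : ℝ)| := by
    rw [Matrix.det_apply]
    push_cast
    refine (abs_sum_le_sum_abs _ _).trans (sum_le_sum fun σ _ => ?_)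
    rcases Int.units_eq_one_or (Equiv.Perm.sign σ) with hs | hs <;> rw [hs] <;>
      simp [abs_neg, abs_prod]
  have h3 : ∀ σ : Equiv.Perm (Fin 4), (∏ i, |(V.adjugate (σ i) i : ℝ)|) * ∏ i, l' i ≤
      (C * |(V.det : ℝ)|) ^ 4 * ∏ i, l i := by
    intro σ
    have e : ∏ i, l' i = ∏ i, l' (σ i) := (Equiv.prod_comp σ l').symm
    rw [e, ← prod_mul_distrib]
    refine (prod_le_prod (fun i _ => by have := hl' (σ i); positivity) (fun i _ => h (σ i) i)).trans ?_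
    rw [prod_mul_distrib, prod_const, card_univ, Fintype.card_fin]
  have h4 : |(V.det : ℝ)| ^ 3 * ∏ i, l' i ≤ 24 * ((C * |(V.det : ℝ)|) ^ 4 * ∏ i, l i) := by
    rw [← h1]
    calc |((V.adjugate).det : ℝ)| * ∏ i, l' i
        ≤ (∑ σ : Equiv.Perm (Fin 4), ∏ i, |(V.adjugate (σ i) i : ℝ)|) * ∏ i, l' i :=
          mul_le_mul_of_nonneg_right h2 hP'.le
      _ = ∑ σ : Equiv.Perm (Fin 4), (∏ i, |(V.adjugate (σ i) i : ℝ)|) * ∏ i, l' i := sum_mul _ _ _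
      _ ≤ ∑ _σ : Equiv.Perm (Fin 4), (C * |(V.det : ℝ)|) ^ 4 * ∏ i, l i := sum_le_sum fun σ _ => h3 σ
      _ = 24 * ((C * |(V.det : ℝ)|) ^ 4 * ∏ i, l i) := by
          rw [sum_const, card_univ, Fintype.card_perm, Fintype.card_fin]
          simp [Nat.factorial]
  have h5 : |(V.det : ℝ)| ^ 3 * ∏ i, l' i ≤
      |(V.det : ℝ)| ^ 3 * (24 * C ^ 4 * |(V.det : ℝ)| * ∏ i, l i) := by
    refine h4.trans (le_of_eq ?_)
    ring
  exact le_of_mul_le_mul_left h5 (by positivity)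

end Pool.Agent.PP5LG
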