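import Pool.Agent.PP5.DB
import Pool.Agent.PP5.Defs

/-!
# LB5, section G: a reduced basis of a lattice of rank four in `Z^12`
-/

set_option autoImplicit false

namespace Pool.Agent.PP5LG

open Matrix Finset

theorem red4 : ∃ C : ℝ, 1 ≤ C ∧ ∀ w : Fin 12 → ℝ, (∀ i, 0 < w i) → ∀ c : Fin 4 → PP5.Sp,
    (∀ n : Fin 4 → ℤ, ∑ i, n i • c i = 0 → n = 0) →
    ∃ U : Matrix (Fin 4) (Fin 4) ℤ, U.det ^ 2 = 1 ∧
      (∀ i j, i ≤ j → PP5.nw w (∑ k, U k i • c k) ≤ PP5.nw w (∑ k, U k j • c k)) ∧
      ∀ (e : Fin 4 → ℤ) (i : Fin 4), |(e i : ℝ)| * PP5.nw w (∑ k, U k i • c k) ≤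
        C * PP5.nw w (∑ j, e j • ∑ k, U k j • c k) := by
  obtain ⟨C, hC, hred⟩ := PP5.red_int 12
  refine ⟨C, hC, ?_⟩
  intro w hw c hc
  let f : (Fin 4 → ℤ) →+ PP5.Sp :=
    { toFun := fun n => ∑ i, n i • c i
      map_zero' := by simp
      map_add' := by
        intro a b
        simp [add_smul, sum_add_distrib] }
  have hf : ∀ n, f n = ∑ i, n i • c i := fun n => rfl
  obtain ⟨n, b, _, hbL, hb0, hmono, hspan, hbd⟩ := hred w hw f.range
  choose u hu using hbL
  have hind : ∀ e : Fin n → ℤ, ∑ i, e i • b i = 0 → e = 0 := by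
    intro e he
    funext i
    have h1 := hbd e i
    rw [he] at h1
    have h0 : PP5.nw w (0 : Fin 12 → ℤ) = 0 := by
      unfold PP5.nw
      have : (fun i : Fin 12 => (((0 : Fin 12 → ℤ) i : ℤ) : ℝ) / w i) = 0 := by
        funext i; simp
      rw [this, norm_zero]
    rw [h0, mul_zero] at h1
    have h2 := PP5.nw_pos hw (hb0 i)
    by_contra hne
    have h3 : 0 < |(e i : ℝ)| := abs_pos.2 (by exact_mod_cast hne)
    have := mul_pos h3 h2
    linarith
  have hcm : ∀ k, ∃ e : Fin n → ℤ, c k = ∑ i, e i • b i := by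
    intro k
    apply hspan
    refine ⟨Pi.single k 1, ?_⟩
    rw [hf, Finset.sum_eq_single k]
    · simp
    · intro j _ hj
      rw [Pi.single_eq_of_ne hj, zero_smul]
    · intro h; exact absurd (mem_univ k) h
  choose e he using hcm
  -- the two matrices
  let U : Matrix (Fin 4) (Fin n) ℤ := Matrix.of fun k i => u i k
  let W : Matrix (Fin n) (Fin 4) ℤ := Matrix.of fun i k => e k i
  have hbU : ∀ i, b i = ∑ k, U k i • c k := fun i => by rw [← hu i, hf]; rfl
  have hcW : ∀ k, c k = ∑ i, W i k • b i := fun k => he k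
  have hUW : U * W = 1 := by
    ext k j
    have h1 : ∑ k, ((U * W) k j - (1 : Matrix (Fin 4) (Fin 4) ℤ) k j) • c k = 0 := by
      simp only [sub_smul, sum_sub_distrib]
      have h2 : ∑ k, (U * W) k j • c k = c j := by
        conv_rhs => rw [hcW j]
        simp only [Matrix.mul_apply, sum_smul]
        rw [sum_comm]
        refine sum_congr rfl fun i _ => ?_
        rw [hbU i, smul_sum]
        refine sum_congr rfl fun k _ => ?_
        rw [smul_smul, mul_comm]
      have h3 : ∑ k, (1 : Matrix (Fin 4) (Fin 4) ℤ) k j • c k = c j := by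
        rw [Finset.sum_eq_single j]
        · simp
        · intro k _ hk
          rw [Matrix.one_apply_ne hk, zero_smul]
        · intro h; exact absurd (mem_univ j) h
      rw [h2, h3, sub_self]
    have h4 := congrFun (hc _ h1) k
    simpa [sub_eq_zero] using h4
  have hWU : W * U = 1 := by
    ext k j
    have h1 : ∑ k, ((W * U) k j - (1 : Matrix (Fin n) (Fin n) ℤ) k j) • b k = 0 := by
      simp only [sub_smul, sum_sub_distrib]
      have h2 : ∑ k, (W * U) k j • b k = b j := by
        conv_rhs => rw [hbU j]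
        simp only [Matrix.mul_apply, sum_smul]
        rw [sum_comm]
        refine sum_congr rfl fun i _ => ?_
        rw [hcW i, smul_sum]
        refine sum_congr rfl fun k _ => ?_
        rw [smul_smul, mul_comm]
      have h3 : ∑ k, (1 : Matrix (Fin n) (Fin n) ℤ) k j • b k = b j := by
        rw [Finset.sum_eq_single j]
        · simp
        · intro k _ hk
          rw [Matrix.one_apply_ne hk, zero_smul]
        · intro h; exact absurd (mem_univ j) h
      rw [h2, h3, sub_self]
    have h4 := congrFun (hind _ h1) k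
    simpa [sub_eq_zero] using h4
  have hn : n = 4 := by
    have := Matrix.square_of_invertible U W hUW hWU
    simpa using this.symm
  subst hn
  refine ⟨U, ?_, ?_, ?_⟩
  · have h1 : U.det * W.det = 1 := by rw [← Matrix.det_mul, hUW, Matrix.det_one]
    rcases Int.isUnit_iff.1 (IsUnit.of_mul_eq_one _ h1) with h | h <;> rw [h] <;> norm_num
  · intro i j hij
    rw [← hbU, ← hbU]
    exact hmono i j hij
  · intro e i
    simp only [← hbU]
    exact hbd e i

end Pool.Agent.PP5LG
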