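import Pool.Agent.PP5LG.Defs
import Pool.Agent.PP5LG.Prd
import Pool.Agent.PP5LG.Rba
import Pool.Agent.PP5LG.Nbb
import Pool.Agent.PP5LG.Nbc
import Pool.Agent.PP5S.Xe
import Pool.Agent.PP5.LFin
import Pool.Agent.PP5B.Qua

/-!
# LB5, section G: the neighbour of `L_x` exists
-/

set_option autoImplicit false

namespace Pool.Agent.PP5LG

open Matrix Finset Pool.Agent.PP5B Pool.Agent.LB

private theorem InE_smul {Q : PP5.Sp} {x : V10} {p : ℤ} (hp : p ≠ 0) (h : PP5.InE (fun a => p * Q a) x) :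
    PP5.InE Q x := by
  constructor
  · apply mul_left_cancel₀ hp; linear_combination h.e1
  · apply mul_left_cancel₀ hp; linear_combination h.e2
  · apply mul_left_cancel₀ hp; linear_combination h.e3
  · apply mul_left_cancel₀ hp; linear_combination h.e4
  · apply mul_left_cancel₀ hp; linear_combination h.e5
  · apply mul_left_cancel₀ hp; linear_combination h.e6
  · apply mul_left_cancel₀ hp; linear_combination h.e7
  · apply mul_left_cancel₀ hp; linear_combination h.e8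
  · apply mul_left_cancel₀ hp; linear_combination h.e9
  · apply mul_left_cancel₀ hp; linear_combination h.e10
  · apply mul_left_cancel₀ hp; linear_combination h.e11
  · apply mul_left_cancel₀ hp; linear_combination h.e12
  · apply mul_left_cancel₀ hp; linear_combination h.e13
  · apply mul_left_cancel₀ hp; linear_combination h.e14
  · apply mul_left_cancel₀ hp; linear_combination h.e15
  · apply mul_left_cancel₀ hp; linear_combination h.e16

private theorem sg1 (a : Fin 12) : PP5.sg 1 1 a = 1 := by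
  fin_cases a <;> simp [PP5.sg]

private theorem tx1 (j : Fin 10) : PP5.tx 1 1 j = 1 := by
  fin_cases j <;> simp [PP5.tx]

private theorem tmv (M G : Matrix (Fin 4) (Fin 4) ℤ) (n m : Fin 4 → ℤ) :
    n ⬝ᵥ ((Mᵀ * G * M) *ᵥ m) = (M *ᵥ n) ⬝ᵥ (G *ᵥ (M *ᵥ m)) := by
  rw [← Matrix.mulVec_mulVec, ← Matrix.mulVec_mulVec, dotProduct_mulVec, Matrix.vecMul_transpose]

theorem nb_main : ∃ C : ℝ, 1 ≤ C ∧ ∀ x : V10, (∀ p : ℕ, p.Prime → ∃ j, ¬ (p : ℤ) ∣ x j) →
    PP5L.FF x = 0 → PP5LB.DD x ≠ 0 →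
    (∀ p : ℕ, p.Prime → ∃ i j, ¬ (p : ℤ) ∣ (PP5L.SS x).adjugate i j) → Spl x →
    ∀ p : ℕ, p.Prime → p ≠ 2 → ¬ (p : ℤ) ^ 2 ∣ PP5LB.DD x → ∀ P0 : PP5.Sp, PP5.InE P0 x →
    PP5.Qd P0 → Prs P0 → ∃ (T : ℝ) (b : Fin 4 → PP5.Sp) (G : Matrix (Fin 4) (Fin 4) ℤ)
      (l : Fin 4 → ℝ), Nb C p T x P0 b G l := by
  obtain ⟨C1, hC1, hX⟩ := PP5S.XEx_exists
  obtain ⟨C2, hC2, hR⟩ := red4
  have hC24 : 0 < C2 ^ 4 * C1 := by positivity
  refine ⟨24 * C2 ^ 4 * C1 + C2 + 8, by nlinarith, ?_⟩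
  intro x hpr hff hD hadj hspl p hp hp2 hd P0 hP0 hq0 hpr0
  have hD' : (PP5L.SS x).det ≠ 0 := hD
  obtain ⟨⟨B0⟩, -⟩ := PP5L.Lx_summary hff hpr hD'
  have hr : Module.finrank ℤ (PP5L.Lx x) = 4 := by
    rw [Module.finrank_eq_card_basis B0, Fintype.card_fin]
  obtain ⟨T, b0, G0, l0, E, hl0, hT⟩ := hX 1 1 le_rfl le_rfl x hpr hff hr
  obtain ⟨B, hB⟩ := E.bas
  have hG : ∀ i k j, PP5L.Bd (B i : Fin 16 → ℤ) (B k : Fin 16 → ℤ) j = G0 i k * x j := by
    intro i k j
    rw [hB, hB]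
    exact E.pol i k j
  obtain ⟨hdet, -⟩ := hspl B G0 hG
  obtain ⟨f1, f2, f3, f4, f5, f6⟩ := PP5L.Lx_facts hff hpr hD' B G0 hG
  have hadj0 : ∀ q : ℕ, q.Prime → ∃ i j, ¬ (q : ℤ) ∣ G0.adjugate i j := by
    intro q hq
    by_contra hc
    push Not at hc
    obtain ⟨i, j, hij⟩ := hadj q hq
    exact hij (f6 q hc i j)
  have hsg : ∀ a, 0 < PP5.sg 1 1 a := fun a => by rw [sg1]; norm_num
  have hp0 : (0 : ℝ) < p := by exact_mod_cast hp.pos
  have hpz : (p : ℤ) ≠ 0 := by exact_mod_cast hp.ne_zero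
  -- coordinates
  have hco : ∀ P : PP5.Sp, PP5.InE P x → PP5.Qd P → Prs P → ∃ v : Fin 4 → ℤ,
      (∀ a, P a = ∑ i, v i * b0 i a) ∧ v ⬝ᵥ (G0 *ᵥ v) = 0 ∧ Pr4 v := by
    intro P h1 h2 h3
    obtain ⟨v, hv, -⟩ := E.span P _ h1 (fun i => PP5.le_nw hsg P i)
    refine ⟨v, hv, E.quad v ?_, ?_⟩
    · have e : (fun a => ∑ i, v i * b0 i a) = P := by funext a; exact (hv a).symm
      rw [e]; exact h2
    · intro q hq h
      refine h3 q hq fun a => ?_
      rw [hv a]
      exact dvd_sum fun i _ => Dvd.dvd.mul_right (h i) _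
  obtain ⟨v0, hv0, hz0, hp40⟩ := hco P0 hP0 hq0 hpr0
  obtain ⟨V, G', hV, hs', hev', hdet', hdV, hcov⟩ :=
    nb_exists f1 f2 hp hp2 (by rw [hdet]; exact hd) hp40 hz0
  have hVd : V.det ≠ 0 := by
    intro h
    rw [h] at hdV
    have : (p : ℤ) ^ 8 ≠ 0 := pow_ne_zero _ hpz
    exact this (by rw [← hdV]; norm_num)
  have hind0 : ∀ n : Fin 4 → ℤ, ∑ i, n i • b0 i = 0 → n = 0 := by
    intro n hn
    refine E.ind n fun a => ?_
    have := congrFun hn a
    rwa [PP5S.sum_smul_apply'] at this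
  have hcomb : ∀ (M : Matrix (Fin 4) (Fin 4) ℤ) (c : Fin 4 → PP5.Sp) (n : Fin 4 → ℤ),
      ∑ i, n i • (∑ k, M k i • c k) = ∑ k, (M *ᵥ n) k • c k := by
    intro M c n
    simp only [smul_sum, mulVec, dotProduct, sum_smul]
    rw [sum_comm]
    refine sum_congr rfl fun k _ => sum_congr rfl fun i _ => ?_
    rw [smul_smul, mul_comm]
  obtain ⟨U, hU, hmono, hbd⟩ := hR (PP5.sg 1 1) hsg (fun i => ∑ k, V k i • b0 k) (by
    intro n hn
    rw [hcomb] at hn
    exact Matrix.eq_zero_of_mulVec_eq_zero hVd (hind0 _ hn))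
  have hUd : U.det ≠ 0 := by
    intro h; rw [h] at hU; norm_num at hU
  set V' : Matrix (Fin 4) (Fin 4) ℤ := V * U with hV'def
  have hVd' : V'.det ≠ 0 := by rw [hV'def, det_mul]; exact mul_ne_zero hVd hUd
  set b : Fin 4 → PP5.Sp := fun i => ∑ k, U k i • ∑ m, V m k • b0 m with hbdef
  have hb : ∀ i, b i = ∑ m, V' m i • b0 m := by
    intro i
    rw [hbdef]
    simp only
    rw [hcomb V b0 (fun k => U k i)]
    refine sum_congr rfl fun m _ => ?_
    rw [hV'def, Matrix.mul_apply]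
    rfl
  have hbc : ∀ n : Fin 4 → ℤ, ∑ i, n i • b i = ∑ m, (V' *ᵥ n) m • b0 m := by
    intro n
    simp only [hb]
    exact hcomb V' b0 n
  have hbind : ∀ n : Fin 4 → ℤ, ∑ i, n i • b i = 0 → n = 0 := by
    intro n hn
    rw [hbc] at hn
    exact Matrix.eq_zero_of_mulVec_eq_zero hVd' (hind0 _ hn)
  have hb0 : ∀ i, b i ≠ 0 := by
    intro i h
    have h1 : ∑ k, (Pi.single i (1 : ℤ) : Fin 4 → ℤ) k • b k = 0 := by
      rw [PP5S.sum_single]; exact h
    have h2 := congrFun (hbind _ h1) i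
    rw [Pi.single_eq_same] at h2
    exact one_ne_zero h2
  have hbE : ∀ i, PP5.InE (b i) x := by
    intro i
    rw [hb, ← PP5.mem_ES]
    exact (PP5.ES x).sum_mem fun m _ => (PP5.ES x).zsmul_mem (PP5.mem_ES.2 (E.bE m)) _
  set G'' : Matrix (Fin 4) (Fin 4) ℤ := Uᵀ * G' * U with hG''
  have hV' : V'ᵀ * G0 * V' = (p : ℤ) ^ 2 • G'' := by
    rw [hV'def, transpose_mul, hG'']
    calc Uᵀ * Vᵀ * G0 * (V * U) = Uᵀ * (Vᵀ * G0 * V) * U := by
          simp only [Matrix.mul_assoc]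
      _ = _ := by rw [hV, Matrix.mul_smul, Matrix.smul_mul]
  have hdet'' : G''.det = G0.det := by
    rw [hG'', det_mul, det_mul, det_transpose, ← hdet']
    linear_combination G'.det * hU
  have hdV' : V'.det ^ 2 = (p : ℤ) ^ 8 := by
    rw [hV'def, det_mul, mul_pow, hdV, hU, mul_one]
  have hsym'' : ∀ i j, G'' i j = G'' j i := by
    have hGT : G'ᵀ = G' := by ext i j; exact hs' j i
    have e : G''ᵀ = G'' := by
      rw [hG'', Matrix.transpose_mul, Matrix.transpose_mul, Matrix.transpose_transpose, hGT,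
        Matrix.mul_assoc]
    intro i j
    exact (congrFun (congrFun e j) i)
  have hent : ∀ (M G : Matrix (Fin 4) (Fin 4) ℤ) (i k : Fin 4),
      (Mᵀ * G * M) i k = (fun m => M m i) ⬝ᵥ (G *ᵥ (fun m => M m k)) := by
    intro M G i k
    have h1 := tmv M G (Pi.single i 1) (Pi.single k 1)
    rw [Matrix.mulVec_single_one, Matrix.mulVec_single_one, Matrix.mulVec_single_one,
      single_one_dotProduct] at h1
    exact h1
  have hev'' : ∀ i, (2 : ℤ) ∣ G'' i i := by
    intro i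
    rw [hG'', hent]
    exact quad_sum G' hs' hev' _
  set nb : Fin 4 → ℝ := fun i => PP5.nw (PP5.sg 1 1) (b i) with hnb
  have hnbp : ∀ i, 0 < nb i := fun i => PP5.nw_pos hsg (hb0 i)
  have hT0 := E.T0
  obtain ⟨j0, hj0⟩ := E.Tge
  rw [tx1, mul_one] at hj0
  have hdVabs : |(V'.det : ℝ)| = (p : ℝ) ^ 4 := by
    have h1 : (V'.det : ℝ) ^ 2 = ((p : ℝ) ^ 4) ^ 2 := by
      have h2 : ((V'.det ^ 2 : ℤ) : ℝ) = (((p : ℤ) ^ 8 : ℤ) : ℝ) := by rw [hdV']
      rw [Int.cast_pow, Int.cast_pow, Int.cast_natCast] at h2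
      rw [h2]; ring
    have h2 := (sq_eq_sq_iff_abs_eq_abs _ _).1 h1
    rw [h2, abs_of_pos (by positivity)]
  have hnwle : ∀ (P : PP5.Sp) (Y : ℝ), (∀ a, |(P a : ℝ)| ≤ Y) → PP5.nw (PP5.sg 1 1) P ≤ Y := by
    intro P Y hY
    rw [PP5.nw_le_iff hsg ((abs_nonneg _).trans (hY 0))]
    intro a
    rw [sg1, mul_one]; exact hY a
  refine ⟨T, b, G'', fun i => nb i / p, ?_⟩
  refine ⟨hT0, ?_, ⟨j0, hj0⟩, hsym'', hev'', by rw [hdet'', hdet], ?_, ?_, ?_, ?_, ?_, ?_, ?_⟩
  · intro j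
    have := E.Tle j
    rwa [tx1, mul_one] at this
  · exact nb_adj hp hV' hdV' hdet'' (by rw [hdet]; exact hd) hadj0
  · intro i
    exact div_pos (hnbp i) hp0
  · refine ⟨?_, ?_, ?_⟩
    · exact div_le_div_of_nonneg_right (hmono 0 1 (by decide)) hp0.le
    · exact div_le_div_of_nonneg_right (hmono 1 2 (by decide)) hp0.le
    · exact div_le_div_of_nonneg_right (hmono 2 3 (by decide)) hp0.le
  · -- the size of the Gram matrix
    intro i k
    have h1 := E.pol' (fun m => V' m i) (fun m => V' m k) j0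
    rw [← hb, ← hb, ← hent, hV'] at h1
    have h2 := PP5.Bd_le (t1 := 1) (t2 := 1) one_pos one_pos (PP5.nw_nonneg _ _)
      (PP5.emb_le one_pos one_pos (b i)) (PP5.emb_le one_pos one_pos (b k)) j0
    rw [h1, tx1, mul_one, Matrix.smul_apply, smul_eq_mul] at h2
    push_cast at h2
    rw [abs_mul, abs_mul, abs_of_pos (by positivity : (0 : ℝ) < (p : ℝ) ^ 2)] at h2
    have h3 : (p : ℝ) ^ 2 * |(G'' i k : ℝ)| * T ≤ 8 * nb i * nb k :=
      (mul_le_mul_of_nonneg_left hj0 (by positivity)).trans h2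
    have h4 : |(G'' i k : ℝ)| ≤ 8 * (nb i / p) * (nb k / p) / T := by
      rw [le_div_iff₀ hT0]
      have e : 8 * (nb i / p) * (nb k / p) = 8 * nb i * nb k / (p : ℝ) ^ 2 := by
        field_simp
      rw [e, le_div_iff₀ (by positivity)]
      linarith
    refine h4.trans ?_
    have h5 : (8 : ℝ) ≤ 24 * C2 ^ 4 * C1 + C2 + 8 := by nlinarith
    have h6 : 0 < nb i / p := div_pos (hnbp i) hp0
    have h7 : 0 < nb k / p := div_pos (hnbp k) hp0
    gcongr
  · -- the product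
    have h1 := prod_le hVd' E.lp hnbp (by linarith : (0 : ℝ) < C2) (fun i j => by
      have h2 := hbd (fun k => V'.adjugate k j) i
      have h3 : ∑ k, V'.adjugate k j • (∑ m, U m k • ∑ m', V m' m • b0 m') = V'.det • b0 j := by
        have h4 := hbc (fun k => V'.adjugate k j)
        refine h4.trans ?_
        have h5 : V' *ᵥ (fun k => V'.adjugate k j) = fun m => V'.det * (1 : Matrix (Fin 4) (Fin 4) ℤ) m j := by
          funext m
          have h6 := congrFun (congrFun (Matrix.mul_adjugate V') m) j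
          rw [Matrix.mul_apply, Matrix.smul_apply, smul_eq_mul] at h6
          exact h6
        rw [h5, Finset.sum_eq_single j]
        · simp
        · intro m _ hm
          show (V'.det * (1 : Matrix (Fin 4) (Fin 4) ℤ) m j) • b0 m = 0
          rw [Matrix.one_apply_ne hm, mul_zero, zero_smul]
        · intro h; exact absurd (mem_univ j) h
      rw [h3] at h2
      have h7 : PP5.nw (PP5.sg 1 1) (V'.det • b0 j) ≤ |(V'.det : ℝ)| * l0 j := by
        apply hnwle
        intro a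
        rw [Pi.smul_apply, smul_eq_mul]
        push_cast
        rw [abs_mul]
        have h8 := E.bl j a
        rw [sg1, mul_one] at h8
        exact mul_le_mul_of_nonneg_left h8 (abs_nonneg _)
      have h9 : |((V'.adjugate i j : ℤ) : ℝ)| * nb i ≤ C2 * PP5.nw (PP5.sg 1 1) (V'.det • b0 j) := h2
      refine h9.trans ?_
      rw [mul_assoc]
      exact mul_le_mul_of_nonneg_left h7 (by linarith))
    rw [hdVabs] at h1
    have h2 : ∏ i, (nb i / (p : ℝ)) = (∏ i, nb i) / (p : ℝ) ^ 4 := by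
      rw [prod_div_distrib, prod_const, card_univ, Fintype.card_fin]
    rw [h2, div_le_iff₀ (by positivity)]
    have h3 := E.prod
    have h4 : 0 < T ^ 4 := by positivity
    have h5 : 24 * C2 ^ 4 * (p : ℝ) ^ 4 * ∏ i, l0 i ≤ 24 * C2 ^ 4 * (p : ℝ) ^ 4 * (C1 * T ^ 4) :=
      mul_le_mul_of_nonneg_left h3 (by positivity)
    refine (h1.trans h5).trans ?_
    have h6 : 24 * C2 ^ 4 * (p : ℝ) ^ 4 * (C1 * T ^ 4) = (24 * C2 ^ 4 * C1) * (T ^ 4 * (p : ℝ) ^ 4) := by
      ring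
    have h7 : (24 * C2 ^ 4 * C1 + C2 + 8) * T ^ 4 * (p : ℝ) ^ 4 =
      (24 * C2 ^ 4 * C1 + C2 + 8) * (T ^ 4 * (p : ℝ) ^ 4) := by ring
    rw [h6, h7]
    exact mul_le_mul_of_nonneg_right (by linarith) (by positivity)
  · intro i
    refine ⟨hbE i, hb0 i, fun a => ?_⟩
    have h1 := PP5.le_nw hsg (b i) a
    rw [sg1, mul_one] at h1
    have h2 : (p : ℝ) * (nb i / p) = nb i := by field_simp
    rw [h2]; exact h1
  · -- the zeros of the class
    intro P Y h1 h2 h3 hc hY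
    obtain ⟨c, hc⟩ := hc
    obtain ⟨v, hv, hz, hp4⟩ := hco P h1 h2 h3
    choose Q hQ using hc
    have hQE : PP5.InE Q x := by
      apply InE_smul hpz
      rw [← PP5.mem_ES]
      have e : (fun a => (p : ℤ) * Q a) = P - c • P0 := by
        funext a
        rw [← hQ a, Pi.sub_apply, Pi.smul_apply, smul_eq_mul]
      rw [e]
      exact (PP5.ES x).sub_mem (PP5.mem_ES.2 h1) ((PP5.ES x).zsmul_mem (PP5.mem_ES.2 hP0) _)
    obtain ⟨u, hu, -⟩ := E.span Q _ hQE (fun i => PP5.le_nw hsg Q i)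
    have hcl : ∃ c : ℤ, ∀ i, (p : ℤ) ∣ v i - c * v0 i := by
      refine ⟨c, fun i => ?_⟩
      have h4 : (fun i => v i - c * v0 i - (p : ℤ) * u i) = 0 := by
        apply E.ind
        intro a
        have h5 := hQ a
        rw [hv a, hv0 a, hu a] at h5
        simp only [sub_mul, sum_sub_distrib, mul_assoc, ← mul_sum]
        linear_combination h5
      have h5 := congrFun h4 i
      simp only [Pi.zero_apply] at h5
      exact ⟨u i, by linear_combination h5⟩
    obtain ⟨n0, hn0⟩ := hcov v hp4 hz hcl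
    set n : Fin 4 → ℤ := U.det • (U.adjugate *ᵥ n0) with hn
    have hUn : U *ᵥ n = n0 := by
      rw [hn, Matrix.mulVec_smul, Matrix.mulVec_mulVec, Matrix.mul_adjugate, Matrix.smul_mulVec,
        Matrix.one_mulVec, smul_smul, ← pow_two, hU, one_smul]
    have hVn : V' *ᵥ n = v := by
      rw [hV'def, ← Matrix.mulVec_mulVec, hUn, hn0]
    have hPn : P = ∑ i, n i • b i := by
      rw [hbc, hVn]
      funext a
      rw [hv a, PP5S.sum_smul_apply']
    refine ⟨n, ?_, ?_, ?_, ?_⟩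
    · intro q hq h
      refine h3 q hq fun a => ?_
      rw [hPn, PP5S.sum_smul_apply']
      exact dvd_sum fun i _ => Dvd.dvd.mul_right (h i) _
    · have h4 := tmv V' G0 n n
      rw [hV', hVn, hz, Matrix.smul_mulVec, dotProduct_smul, smul_eq_mul] at h4
      exact (mul_eq_zero.1 h4).resolve_left (pow_ne_zero _ hpz)
    · intro a
      rw [hPn, PP5S.sum_smul_apply']
    · intro i
      have h4 : |(n i : ℝ)| * nb i ≤ C2 * PP5.nw (PP5.sg 1 1) P := by
        rw [hPn]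
        exact hbd n i
      have h5 := hnwle P Y hY
      have hY0 : 0 ≤ Y := (abs_nonneg _).trans (hY 0)
      have h6 : |(n i : ℝ)| * (nb i / p) = |(n i : ℝ)| * nb i / p := by ring
      rw [h6, mul_div_assoc', div_le_div_iff_of_pos_right hp0]
      calc |(n i : ℝ)| * nb i ≤ C2 * PP5.nw (PP5.sg 1 1) P := h4
        _ ≤ C2 * Y := mul_le_mul_of_nonneg_left h5 (by linarith)
        _ ≤ (24 * C2 ^ 4 * C1 + C2 + 8) * Y := mul_le_mul_of_nonneg_right (by nlinarith) hY0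

end Pool.Agent.PP5LG
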